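import Mathlib

set_option autoImplicit false

namespace Pool.Agent.Run7.h87

open Finset

attribute [local instance 10] Classical.propDecidable

/-- A set of arcs that is a partial injection. -/
def PInj {C : Type*} (E : Finset (C × C)) : Prop :=
  (∀ p ∈ E, ∀ q ∈ E, p.1 = q.1 → p = q) ∧ (∀ p ∈ E, ∀ q ∈ E, p.2 = q.2 → p = q)

theorem PInj.mono {C : Type*} {E F : Finset (C × C)} (h : PInj F) (hs : E ⊆ F) : PInj E :=
  ⟨fun p hp q hq e => h.1 p (hs hp) q (hs hq) e, fun p hp q hq e => h.2 p (hs hp) q (hs hq) e⟩

theorem closed_sets {C : Type*} [Fintype C] (step : C → C → Prop)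
    (det : ∀ u v v', step u v → step u v' → v = v') (m : ℕ)
    (hm : m ≤ (univ.filter (fun e : C => ¬ ∃ v, step e v)).card) :
    ∃ P : Finset C, (∀ u v, step u v → (u ∈ P ↔ v ∈ P)) ∧
      (P.filter (fun e : C => ¬ ∃ v, step e v)).card = m := by
  classical
  induction m with
  | zero => exact ⟨∅, by simp, by simp⟩
  | succ m ih =>
    obtain ⟨P, hP, hc⟩ := ih (Nat.le_of_succ_le hm)
    -- an endpoint not in P
    have : ∃ e ∈ univ.filter (fun e : C => ¬ ∃ v, step e v), e ∉ P.filter (fun e : C => ¬ ∃ v, step e v) := by
      apply Finset.exists_mem_notMem_of_card_lt_card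
      omega
    obtain ⟨e, he1, he2⟩ := this
    have hend : ¬ ∃ v, step e v := (mem_filter.1 he1).2
    have heP : e ∉ P := fun h => he2 (mem_filter.2 ⟨h, hend⟩)
    let K : Finset C := univ.filter (fun u => Relation.ReflTransGen step u e)
    have hK : ∀ u v, step u v → (u ∈ K ↔ v ∈ K) := by
      intro u v huv
      simp only [K, mem_filter, mem_univ, true_and]
      constructor
      · intro h
        rcases Relation.ReflTransGen.cases_head h with h | ⟨v', h1, h2⟩
        · subst h; exact absurd ⟨v, huv⟩ hend
        · rw [det u v v' huv h1]; exact h2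
      · intro h
        exact Relation.ReflTransGen.head huv h
    have hKP : Disjoint P K := by
      rw [disjoint_left]
      intro u hu hK'
      simp only [K, mem_filter, mem_univ, true_and] at hK'
      apply heP
      clear hK
      induction hK' using Relation.ReflTransGen.head_induction_on with
      | refl => exact hu
      | head h1 _ ih => exact ih ((hP _ _ h1).1 hu)
    refine ⟨P ∪ K, ?_, ?_⟩
    · intro u v huv
      simp only [mem_union]
      rw [hP u v huv, hK u v huv]
    · rw [filter_union, card_union_of_disjoint, hc]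
      · have : K.filter (fun e : C => ¬ ∃ v, step e v) = {e} := by
          ext u
          simp only [mem_filter, mem_singleton, K, mem_univ, true_and]
          constructor
          · rintro ⟨h1, h2⟩
            rcases Relation.ReflTransGen.cases_head h1 with h | ⟨v', h3, _⟩
            · exact h
            · exact absurd ⟨v', h3⟩ h2
          · rintro rfl
            exact ⟨Relation.ReflTransGen.refl, hend⟩
        rw [this, card_singleton]
      · exact (hKP.mono (filter_subset _ _) (filter_subset _ _))

/-- Interpolation between a perfect matching and a partial matching. -/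
theorem interp {C : Type*} [Fintype C] (F R : Finset (C × C)) (hF : PInj F)
    (hFc : F.card = Fintype.card C) (hR : PInj R) (hd : Disjoint F R) (s : ℕ)
    (h1 : R.card ≤ s) (h2 : s ≤ Fintype.card C) :
    ∃ A B : Finset (C × C), PInj A ∧ PInj B ∧ Disjoint A B ∧ A ∪ B = F ∪ R ∧ A.card = s := by
  classical
  -- F is the graph of a bijection
  have hF1 : Set.InjOn Prod.fst (F : Set (C × C)) := by
    intro p hp q hq e
    exact hF.1 p hp q hq e
  have hF2 : Set.InjOn Prod.snd (F : Set (C × C)) := by
    intro p hp q hq e
    exact hF.2 p hp q hq e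
  have himg1 : F.image Prod.fst = univ := by
    apply eq_univ_of_card
    rw [card_image_of_injOn hF1, hFc]
  have himg2 : F.image Prod.snd = univ := by
    apply eq_univ_of_card
    rw [card_image_of_injOn hF2, hFc]
  have ex : ∀ w : C, ∃ h, (w, h) ∈ F := by
    intro w
    have : w ∈ F.image Prod.fst := by rw [himg1]; exact mem_univ w
    obtain ⟨⟨a, b⟩, hp, rfl⟩ := mem_image.1 this
    exact ⟨b, hp⟩
  choose φ hφ using ex
  have hφ' : ∀ p ∈ F, p.2 = φ p.1 := by
    intro p hp
    have := hF.1 p hp (p.1, φ p.1) (hφ p.1) rfl
    rw [Prod.ext_iff] at this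
    exact this.2
  have hφs : Function.Surjective φ := by
    intro h
    have : h ∈ F.image Prod.snd := by rw [himg2]; exact mem_univ h
    obtain ⟨p, hp, rfl⟩ := mem_image.1 this
    exact ⟨p.1, (hφ' p hp).symm⟩
  have hφi : Function.Injective φ := by
    intro u v e
    have := hF.2 _ (hφ u) _ (hφ v) e
    rw [Prod.ext_iff] at this
    exact this.1
  obtain ⟨step, hstep⟩ : ∃ step : C → C → Prop, ∀ u v, step u v ↔ (u, φ v) ∈ R :=
    ⟨fun u v => (u, φ v) ∈ R, fun _ _ => Iff.rfl⟩
  have det : ∀ u v v', step u v → step u v' → v = v' := by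
    intro u v v' h h'
    have := hR.1 _ ((hstep _ _).1 h) _ ((hstep _ _).1 h') rfl
    rw [Prod.ext_iff] at this
    exact hφi this.2
  have hdom : ∀ u, (∃ v, step u v) ↔ u ∈ R.image Prod.fst := by
    intro u
    constructor
    · rintro ⟨v, hv⟩
      exact mem_image.2 ⟨_, (hstep _ _).1 hv, rfl⟩
    · intro h
      obtain ⟨⟨a, b⟩, hp, rfl⟩ := mem_image.1 h
      obtain ⟨v, rfl⟩ := hφs b
      exact ⟨v, (hstep _ _).2 hp⟩
  have hR1 : Set.InjOn Prod.fst (R : Set (C × C)) := fun p hp q hq e => hR.1 p hp q hq e
  have hcard : (univ.filter (fun e : C => ¬ ∃ v, step e v)).card = Fintype.card C - R.card := by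
    have : univ.filter (fun e : C => ¬ ∃ v, step e v) = (R.image Prod.fst)ᶜ := by
      ext e
      simp only [mem_filter, mem_univ, true_and, mem_compl]
      rw [hdom]
    rw [this, card_compl, card_image_of_injOn hR1]
  obtain ⟨P, hP, hPc⟩ := closed_sets step det (s - R.card) (by rw [hcard]; omega)
  refine ⟨F.filter (fun p => p.1 ∈ P) ∪ R.filter (fun p => p.1 ∉ P),
    F.filter (fun p => p.1 ∉ P) ∪ R.filter (fun p => p.1 ∈ P), ?_, ?_, ?_, ?_, ?_⟩
  · constructor
    · intro p hp q hq e
      simp only [mem_union, mem_filter] at hp hq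
      rcases hp with ⟨hp, hp'⟩ | ⟨hp, hp'⟩ <;> rcases hq with ⟨hq, hq'⟩ | ⟨hq, hq'⟩
      · exact hF.1 p hp q hq e
      · rw [e] at hp'; exact absurd hp' hq'
      · rw [e] at hp'; exact absurd hq' hp'
      · exact hR.1 p hp q hq e
    · intro p hp q hq e
      simp only [mem_union, mem_filter] at hp hq
      rcases hp with ⟨hp, hp'⟩ | ⟨hp, hp'⟩ <;> rcases hq with ⟨hq, hq'⟩ | ⟨hq, hq'⟩
      · exact hF.2 p hp q hq e
      · exfalso
        have hs : step q.1 p.1 := by
          rw [hstep]
          rw [← hφ' p hp, e]; exact hq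
        exact hq' ((hP _ _ hs).2 hp')
      · exfalso
        have hs : step p.1 q.1 := by
          rw [hstep]
          rw [← hφ' q hq, ← e]; exact hp
        exact hp' ((hP _ _ hs).2 hq')
      · exact hR.2 p hp q hq e
  · constructor
    · intro p hp q hq e
      simp only [mem_union, mem_filter] at hp hq
      rcases hp with ⟨hp, hp'⟩ | ⟨hp, hp'⟩ <;> rcases hq with ⟨hq, hq'⟩ | ⟨hq, hq'⟩
      · exact hF.1 p hp q hq e
      · rw [e] at hp'; exact absurd hq' hp'
      · rw [e] at hp'; exact absurd hp' hq'
      · exact hR.1 p hp q hq e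
    · intro p hp q hq e
      simp only [mem_union, mem_filter] at hp hq
      rcases hp with ⟨hp, hp'⟩ | ⟨hp, hp'⟩ <;> rcases hq with ⟨hq, hq'⟩ | ⟨hq, hq'⟩
      · exact hF.2 p hp q hq e
      · exfalso
        have hs : step q.1 p.1 := by
          rw [hstep]
          rw [← hφ' p hp, e]; exact hq
        exact hp' ((hP _ _ hs).1 hq')
      · exfalso
        have hs : step p.1 q.1 := by
          rw [hstep]
          rw [← hφ' q hq, ← e]; exact hp
        exact hq' ((hP _ _ hs).1 hp')
      · exact hR.2 p hp q hq e
  · rw [disjoint_left]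
    intro p hp hq
    simp only [mem_union, mem_filter] at hp hq
    rcases hp with ⟨hp, hp'⟩ | ⟨hp, hp'⟩ <;> rcases hq with ⟨hq, hq'⟩ | ⟨hq, hq'⟩
    · exact hq' hp'
    · exact (disjoint_left.1 hd) hp hq
    · exact (disjoint_left.1 hd) hq hp
    · exact hp' hq'
  · ext p
    simp only [mem_union, mem_filter]
    by_cases hp : p.1 ∈ P <;> simp [hp]
    · tauto
  · have e1 : (F.filter (fun p => p.1 ∈ P)).card = P.card := by
      rw [← card_image_of_injOn (f := Prod.fst) (hF1.mono (by
        intro p hp; exact (mem_filter.1 hp).1))]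
      congr 1
      ext w
      simp only [mem_image, mem_filter]
      constructor
      · rintro ⟨p, ⟨_, hp⟩, rfl⟩; exact hp
      · intro hw; exact ⟨(w, φ w), ⟨hφ w, hw⟩, rfl⟩
    have e2 : (R.filter (fun p => p.1 ∈ P)).card = P.card - (s - R.card) := by
      rw [← card_image_of_injOn (f := Prod.fst) (hR1.mono (by
        intro p hp; exact (mem_filter.1 hp).1))]
      have : (R.filter (fun p => p.1 ∈ P)).image Prod.fst = P \ (P.filter (fun e : C => ¬ ∃ v, step e v)) := by
        ext w
        simp only [mem_image, mem_filter, mem_sdiff, not_and, not_not]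
        constructor
        · rintro ⟨p, ⟨hp, hpP⟩, rfl⟩
          exact ⟨hpP, fun _ => (hdom _).2 (mem_image.2 ⟨p, hp, rfl⟩)⟩
        · rintro ⟨hw, hw'⟩
          obtain ⟨p, hp, rfl⟩ := mem_image.1 ((hdom w).1 (hw' hw))
          exact ⟨p, ⟨hp, hw⟩, rfl⟩
      rw [this, card_sdiff_of_subset (filter_subset _ _), hPc]
    have e3 : (R.filter (fun p => p.1 ∈ P)).card + (R.filter (fun p => p.1 ∉ P)).card = R.card :=
      card_filter_add_card_filter_not _
    have e4 : s - R.card ≤ P.card := by
      rw [← hPc]; exact card_filter_le _ _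
    rw [card_union_of_disjoint, e1]
    · omega
    · rw [disjoint_left]
      intro p hp hq
      exact (mem_filter.1 hq).2 (mem_filter.1 hp).2

/-- Prescribed sizes: perfect matchings `F i` together with a partial matching `R` can be
repartitioned into partial matchings of prescribed sizes `r x ≤ |C|`. -/
theorem prescribed {C N ι : Type*} [Fintype C] (s : Finset N) (r : N → ℕ)
    (hr : ∀ x ∈ s, r x ≤ Fintype.card C) :
    ∀ (I : Finset ι) (F : ι → Finset (C × C)) (R : Finset (C × C)),
    (∀ i ∈ I, PInj (F i)) → (∀ i ∈ I, (F i).card = Fintype.card C) → PInj R →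
    (∀ i ∈ I, ∀ j ∈ I, i ≠ j → Disjoint (F i) (F j)) → (∀ i ∈ I, Disjoint (F i) R) →
    (∑ x ∈ s, r x = I.card * Fintype.card C + R.card) →
    ∃ A : N → Finset (C × C), (∀ x ∈ s, PInj (A x)) ∧ (∀ x ∈ s, (A x).card = r x) ∧
      (∀ x ∈ s, ∀ y ∈ s, x ≠ y → Disjoint (A x) (A y)) ∧
      (∀ p, (∃ x ∈ s, p ∈ A x) ↔ ((∃ i ∈ I, p ∈ F i) ∨ p ∈ R)) := by
  classical
  induction s using Finset.induction_on with
  | empty =>
    intro I F R h1 h2 h3 h4 h5 h6
    rw [sum_empty] at h6
    have hR0 : R = ∅ := card_eq_zero.1 (by omega)
    refine ⟨fun _ => ∅, by simp, by simp, by simp, ?_⟩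
    intro p
    simp only [notMem_empty, false_and, exists_false, hR0, or_false, false_iff, not_exists, not_and]
    intro i hi hp
    have : (F i).card ≠ 0 := by
      rw [Ne, card_eq_zero]; intro h; rw [h] at hp; exact absurd hp (notMem_empty _)
    rw [h2 i hi] at this
    have hI : I.card ≠ 0 := by
      rw [Ne, card_eq_zero]; intro h; rw [h] at hi; exact absurd hi (notMem_empty _)
    have := Nat.mul_ne_zero hI this
    omega
  | insert x s hx ih =>
    intro I F R h1 h2 h3 h4 h5 h6
    have hr' : ∀ y ∈ s, r y ≤ Fintype.card C := fun y hy => hr y (mem_insert_of_mem hy)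
    rw [sum_insert hx] at h6
    by_cases hc : r x ≤ R.card
    · obtain ⟨A0, hA0, hA0c⟩ := exists_subset_card_eq hc
      obtain ⟨A, g1, g2, g3, g4⟩ := ih hr' I F (R \ A0) h1 h2 (h3.mono sdiff_subset) h4
        (fun i hi => (h5 i hi).mono_right sdiff_subset)
        (by rw [card_sdiff_of_subset hA0]; omega)
      have hAnot : ∀ y ∈ s, Disjoint A0 (A y) := by
        intro y hy
        rw [disjoint_left]
        intro p hp hq
        rcases (g4 p).1 ⟨y, hy, hq⟩ with ⟨i, hi, h⟩ | h
        · exact (disjoint_left.1 (h5 i hi)) h (hA0 hp)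
        · exact (mem_sdiff.1 h).2 hp
      refine ⟨fun y => if y = x then A0 else A y, ?_, ?_, ?_, ?_⟩
      · intro y hy
        by_cases hyx : y = x
        · simp only [hyx, if_true]; exact h3.mono hA0
        · simp only [hyx, if_false]; exact g1 y ((mem_insert.1 hy).resolve_left hyx)
      · intro y hy
        by_cases hyx : y = x
        · simp only [hyx, if_true]; exact hA0c
        · simp only [hyx, if_false]; exact g2 y ((mem_insert.1 hy).resolve_left hyx)
      · intro y hy y' hy' hne
        by_cases hyx : y = x
        · have hyx' : y' ≠ x := fun h => hne (by rw [hyx, h])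
          simp only [hyx, if_true, hyx', if_false]
          exact hAnot y' ((mem_insert.1 hy').resolve_left hyx')
        · by_cases hyx' : y' = x
          · simp only [hyx, if_false, hyx', if_true]
            exact (hAnot y ((mem_insert.1 hy).resolve_left hyx)).symm
          · simp only [hyx, if_false, hyx', if_false]
            exact g3 y ((mem_insert.1 hy).resolve_left hyx) y' ((mem_insert.1 hy').resolve_left hyx') hne
      · intro p
        constructor
        · rintro ⟨y, hy, hp⟩
          by_cases hyx : y = x
          · simp only [hyx, if_true] at hp; exact Or.inr (hA0 hp)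
          · simp only [hyx, if_false] at hp
            rcases (g4 p).1 ⟨y, (mem_insert.1 hy).resolve_left hyx, hp⟩ with h | h
            · exact Or.inl h
            · exact Or.inr (mem_sdiff.1 h).1
        · intro h
          by_cases hp0 : p ∈ A0
          · exact ⟨x, mem_insert_self _ _, by simpa using hp0⟩
          · have : (∃ i ∈ I, p ∈ F i) ∨ p ∈ R \ A0 := by
              rcases h with h | h
              · exact Or.inl h
              · exact Or.inr (mem_sdiff.2 ⟨h, hp0⟩)
            obtain ⟨y, hy, hp⟩ := (g4 p).2 this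
            have hyx : y ≠ x := fun e => hx (e ▸ hy)
            exact ⟨y, mem_insert_of_mem hy, by simpa [hyx] using hp⟩
    · push Not at hc
      have hI : I.Nonempty := by
        rw [nonempty_iff_ne_empty]
        intro h
        rw [h, card_empty, zero_mul, zero_add] at h6
        omega
      obtain ⟨i0, hi0⟩ := hI
      obtain ⟨A0, B0, k1, k2, k3, k4, k5⟩ := interp (F i0) R (h1 i0 hi0) (h2 i0 hi0) h3 (h5 i0 hi0)
        (r x) hc.le (hr x (mem_insert_self _ _))
      have hB0c : A0.card + B0.card = Fintype.card C + R.card := by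
        rw [← card_union_of_disjoint k3, k4, card_union_of_disjoint (h5 i0 hi0), h2 i0 hi0]
      have hB0sub : ∀ p ∈ B0, p ∈ F i0 ∨ p ∈ R := by
        intro p hp
        have : p ∈ A0 ∪ B0 := mem_union_right _ hp
        rw [k4] at this
        exact mem_union.1 this
      have hA0sub : ∀ p ∈ A0, p ∈ F i0 ∨ p ∈ R := by
        intro p hp
        have : p ∈ A0 ∪ B0 := mem_union_left _ hp
        rw [k4] at this
        exact mem_union.1 this
      obtain ⟨A, g1, g2, g3, g4⟩ := ih hr' (I.erase i0) F B0
        (fun i hi => h1 i (mem_of_mem_erase hi)) (fun i hi => h2 i (mem_of_mem_erase hi)) k2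
        (fun i hi j hj hij => h4 i (mem_of_mem_erase hi) j (mem_of_mem_erase hj) hij)
        (fun i hi => by
          rw [disjoint_left]
          intro p hp hq
          rcases hB0sub p hq with h | h
          · exact (disjoint_left.1 (h4 i (mem_of_mem_erase hi) i0 hi0 (ne_of_mem_erase hi))) hp h
          · exact (disjoint_left.1 (h5 i (mem_of_mem_erase hi))) hp h)
        (by
          rw [card_erase_of_mem hi0]
          have hIc : 1 ≤ I.card := Finset.card_pos.2 ⟨i0, hi0⟩
          have : (I.card - 1) * Fintype.card C = I.card * Fintype.card C - Fintype.card C := by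
            rw [Nat.sub_mul, one_mul]
          have h7 : Fintype.card C ≤ I.card * Fintype.card C := Nat.le_mul_of_pos_left _ hIc
          rw [this]
          omega)
      have hAnot : ∀ y ∈ s, Disjoint A0 (A y) := by
        intro y hy
        rw [disjoint_left]
        intro p hp hq
        rcases (g4 p).1 ⟨y, hy, hq⟩ with ⟨i, hi, h⟩ | h
        · rcases hA0sub p hp with h' | h'
          · exact (disjoint_left.1 (h4 i (mem_of_mem_erase hi) i0 hi0 (ne_of_mem_erase hi))) h h'
          · exact (disjoint_left.1 (h5 i (mem_of_mem_erase hi))) h h'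
        · exact (disjoint_left.1 k3) hp h
      refine ⟨fun y => if y = x then A0 else A y, ?_, ?_, ?_, ?_⟩
      · intro y hy
        by_cases hyx : y = x
        · simp only [hyx, if_true]; exact k1
        · simp only [hyx, if_false]; exact g1 y ((mem_insert.1 hy).resolve_left hyx)
      · intro y hy
        by_cases hyx : y = x
        · simp only [hyx, if_true]; exact k5
        · simp only [hyx, if_false]; exact g2 y ((mem_insert.1 hy).resolve_left hyx)
      · intro y hy y' hy' hne
        by_cases hyx : y = x
        · have hyx' : y' ≠ x := fun h => hne (by rw [hyx, h])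
          simp only [hyx, if_true, hyx', if_false]
          exact hAnot y' ((mem_insert.1 hy').resolve_left hyx')
        · by_cases hyx' : y' = x
          · simp only [hyx, if_false, hyx', if_true]
            exact (hAnot y ((mem_insert.1 hy).resolve_left hyx)).symm
          · simp only [hyx, if_false, hyx', if_false]
            exact g3 y ((mem_insert.1 hy).resolve_left hyx) y' ((mem_insert.1 hy').resolve_left hyx') hne
      · intro p
        constructor
        · rintro ⟨y, hy, hp⟩
          by_cases hyx : y = x
          · simp only [hyx, if_true] at hp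
            rcases hA0sub p hp with h | h
            · exact Or.inl ⟨i0, hi0, h⟩
            · exact Or.inr h
          · simp only [hyx, if_false] at hp
            rcases (g4 p).1 ⟨y, (mem_insert.1 hy).resolve_left hyx, hp⟩ with ⟨i, hi, h⟩ | h
            · exact Or.inl ⟨i, mem_of_mem_erase hi, h⟩
            · rcases hB0sub p h with h | h
              · exact Or.inl ⟨i0, hi0, h⟩
              · exact Or.inr h
        · intro h
          by_cases hp0 : p ∈ A0
          · exact ⟨x, mem_insert_self _ _, by simpa using hp0⟩
          · have : (∃ i ∈ I.erase i0, p ∈ F i) ∨ p ∈ B0 := by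
              rcases h with ⟨i, hi, h⟩ | h
              · by_cases hii : i = i0
                · subst hii
                  have : p ∈ A0 ∪ B0 := by rw [k4]; exact mem_union_left _ h
                  exact Or.inr ((mem_union.1 this).resolve_left hp0)
                · exact Or.inl ⟨i, mem_erase.2 ⟨hii, hi⟩, h⟩
              · have : p ∈ A0 ∪ B0 := by rw [k4]; exact mem_union_right _ h
                exact Or.inr ((mem_union.1 this).resolve_left hp0)
            obtain ⟨y, hy, hp⟩ := (g4 p).2 this
            have hyx : y ≠ x := fun e => hx (e ▸ hy)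
            exact ⟨y, mem_insert_of_mem hy, by simpa [hyx] using hp⟩

end Pool.Agent.Run7.h87
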