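import Pool.Agent.Run7.h87.Basic

set_option autoImplicit false

namespace Pool.Agent.Run7.h87

open Finset

attribute [local instance 10] Classical.propDecidable

/-- König: a `z`-regular bipartite relation decomposes into `z` perfect matchings. -/
theorem konig {U : Type*} [Fintype U] : ∀ (z : ℕ) (r : U → U → Prop),
    (∀ a, (univ.filter (fun b => r a b)).card = z) →
    (∀ b, (univ.filter (fun a => r a b)).card = z) →
    ∃ σ : Fin z → Equiv.Perm U, (∀ i a, r a (σ i a)) ∧
      (∀ a b, r a b → ∃ i, σ i a = b) ∧ (∀ i j a, σ i a = σ j a → i = j) := by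
  classical
  intro z
  induction z with
  | zero =>
    intro r h1 h2
    refine ⟨fun i => i.elim0, fun i => i.elim0, ?_, fun i => i.elim0⟩
    intro a b hab
    have := h1 a
    rw [card_eq_zero, filter_eq_empty_iff] at this
    exact absurd hab (this (mem_univ b))
  | succ z ih =>
    intro r h1 h2
    -- Hall
    have hall : ∀ s : Finset U, s.card ≤ (s.biUnion (fun a => univ.filter (fun b => r a b))).card := by
      intro s
      have key := Finset.card_mul_le_card_mul (s := s)
        (t := s.biUnion (fun a => univ.filter (fun b => r a b))) (fun a b => r a b) (m := z + 1) (n := z + 1) ?_ ?_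
      · exact Nat.le_of_mul_le_mul_right key (Nat.succ_pos z)
      · intro a ha
        rw [← h1 a]
        apply card_le_card
        intro b hb
        simp only [mem_filter, mem_univ, true_and] at hb
        simp only [bipartiteAbove, mem_filter, mem_biUnion, mem_univ, true_and]
        exact ⟨⟨a, ha, hb⟩, hb⟩
      · intro b _
        rw [← h2 b]
        apply card_le_card
        intro a ha
        simp only [bipartiteBelow, mem_filter] at ha
        simp only [mem_filter, mem_univ, true_and]
        exact ha.2
    obtain ⟨f, hf, hr⟩ := (Finset.all_card_le_biUnion_card_iff_exists_injective _).1 hall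
    have hfb : Function.Bijective f := (Finite.injective_iff_bijective).1 hf
    let σ0 : Equiv.Perm U := Equiv.ofBijective f hfb
    have hσ0 : ∀ a, r a (σ0 a) := by
      intro a
      have := hr a
      simp only [mem_filter, mem_univ, true_and] at this
      exact this
    have g1 : ∀ a, (univ.filter (fun b => r a b ∧ σ0 a ≠ b)).card = z := by
      intro a
      have e : univ.filter (fun b => r a b ∧ σ0 a ≠ b) = (univ.filter (fun b => r a b)).erase (σ0 a) := by
        ext b
        simp only [mem_filter, mem_univ, true_and, mem_erase]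
        constructor
        · rintro ⟨x, y⟩; exact ⟨fun h => y h.symm, x⟩
        · rintro ⟨x, y⟩; exact ⟨y, fun h => x h.symm⟩
      rw [e, card_erase_of_mem (by simp only [mem_filter, mem_univ, true_and]; exact hσ0 a), h1 a]
      rfl
    have g2 : ∀ b, (univ.filter (fun a => r a b ∧ σ0 a ≠ b)).card = z := by
      intro b
      have e : univ.filter (fun a => r a b ∧ σ0 a ≠ b) = (univ.filter (fun a => r a b)).erase (σ0.symm b) := by
        ext a
        simp only [mem_filter, mem_univ, true_and, mem_erase]
        constructor
        · rintro ⟨x, y⟩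
          refine ⟨fun h => y ?_, x⟩
          rw [h]; simp
        · rintro ⟨x, y⟩
          refine ⟨y, fun h => x ?_⟩
          rw [← h]; simp
      have hm : σ0.symm b ∈ univ.filter (fun a => r a b) := by
        simp only [mem_filter, mem_univ, true_and]
        have := hσ0 (σ0.symm b)
        simpa using this
      rw [e, card_erase_of_mem hm, h2 b]
      simp
    obtain ⟨σ, s1, s2, s3⟩ := ih (fun a b => r a b ∧ σ0 a ≠ b)
      (fun a => by convert g1 a) (fun b => by convert g2 b)
    refine ⟨Fin.cons σ0 σ, ?_, ?_, ?_⟩
    · intro i a
      refine Fin.cases ?_ (fun i => ?_) i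
      · simpa using hσ0 a
      · simpa using (s1 i a).1
    · intro a b hab
      by_cases hb : σ0 a = b
      · exact ⟨0, by simpa using hb⟩
      · obtain ⟨i, hi⟩ := s2 a b ⟨hab, hb⟩
        exact ⟨i.succ, by simpa using hi⟩
    · intro i j a
      refine Fin.cases ?_ (fun i => ?_) i
      · refine Fin.cases ?_ (fun j => ?_) j
        · intro _; rfl
        · intro e
          simp only [Fin.cons_zero, Fin.cons_succ] at e
          exact absurd e (s1 j a).2
      · refine Fin.cases ?_ (fun j => ?_) j
        · intro e
          simp only [Fin.cons_zero, Fin.cons_succ] at e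
          exact absurd e.symm (s1 i a).2
        · intro e
          simp only [Fin.cons_succ] at e
          rw [s3 i j a e]

/-- Completion with a hub: a partial MTS whose leave is `z`-regular, together with an MTS of
order `z`, gives an MTS on the disjoint union. -/
theorem hub_completion {U : Type*} [Fintype U] {R : U → U → U → Prop} (hR : IsPMTS R) {z : ℕ}
    (hreg : ∀ a, ldeg R a = z) {Q : Fin z → Fin z → Fin z → Prop} (hQ : IsMTS Q) :
    ∃ R' : U ⊕ Fin z → U ⊕ Fin z → U ⊕ Fin z → Prop, IsMTS R' ∧
      ∀ a b c, R a b c → R' (Sum.inl a) (Sum.inl b) (Sum.inl c) := by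
  classical
  obtain ⟨σ, s1, s2, s3⟩ := konig z (Lv R) (fun a => hreg a)
    (fun b => by rw [card_lv_in hR b]; exact hreg b)
  refine ⟨fun u v w =>
    match u, v, w with
    | Sum.inl a, Sum.inl b, Sum.inl c => R a b c
    | Sum.inl a, Sum.inl b, Sum.inr i => σ i a = b
    | Sum.inl b, Sum.inr i, Sum.inl a => σ i a = b
    | Sum.inr i, Sum.inl a, Sum.inl b => σ i a = b
    | Sum.inr i, Sum.inr j, Sum.inr k => Q i j k
    | _, _, _ => False, ⟨⟨?_, ?_, ?_⟩, ?_⟩, ?_⟩
  · rintro (a | i) (b | j) (c | k) h
    · exact hR.cyc _ _ _ h
    · exact h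
    · exact h
    · exact h
    · exact h
    · exact h
    · exact h
    · exact hQ.1.cyc _ _ _ h
  · rintro (a | i) (b | j) (c | k) h
    · exact fun e => hR.ne _ _ _ h (Sum.inl_injective e)
    · intro e
      have h' : σ k a = b := h
      have := s1 k a
      rw [h', Sum.inl_injective e] at this
      exact this.1 rfl
    · simp
    · simp
    · simp
    · simp
    · exact absurd h id
    · exact fun e => hQ.1.ne _ _ _ h (Sum.inr_injective e)
  · rintro (a | i) (b | j) (c | k) (c' | k') h h'
    · rw [hR.uniq _ _ _ _ h h']
    · exfalso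
      have e' : σ k' a = b := h'
      have := s1 k' a
      rw [e'] at this
      exact this.2 ⟨c, h⟩
    · exfalso
      have e' : σ k a = b := h
      have := s1 k a
      rw [e'] at this
      exact this.2 ⟨c', h'⟩
    · have e1 : σ k a = b := h
      have e2 : σ k' a = b := h'
      rw [s3 k k' a (e1.trans e2.symm)]
    · have e1 : σ j c = a := h
      have e2 : σ j c' = a := h'
      rw [(σ j).injective (e1.trans e2.symm)]
    · exact absurd h' id
    · exact absurd h id
    · exact absurd h id
    · have e1 : σ i b = c := h
      have e2 : σ i b = c' := h'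
      rw [e1.symm.trans e2]
    · exact absurd h' id
    · exact absurd h id
    · exact absurd h id
    · exact absurd h id
    · exact absurd h id
    · exact absurd h' id
    · rw [hQ.1.uniq _ _ _ _ h h']
  · rintro (a | i) (b | j) hne
    · by_cases hc : Cov R a b
      · obtain ⟨c, hc⟩ := hc
        exact ⟨Sum.inl c, hc⟩
      · obtain ⟨i, hi⟩ := s2 a b ⟨fun e => hne (by rw [e]), hc⟩
        exact ⟨Sum.inr i, hi⟩
    · refine ⟨Sum.inl ((σ j).symm a), ?_⟩
      show σ j ((σ j).symm a) = a
      simp
    · exact ⟨Sum.inl (σ i b), rfl⟩
    · obtain ⟨k, hk⟩ := hQ.2 i j (fun e => hne (by rw [e]))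
      exact ⟨Sum.inr k, hk⟩
  · intro a b c h
    exact h

end Pool.Agent.Run7.h87
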