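import Pool.Agent.Run7.h87.Basic2
import Pool.Agent.Run7.h87.Konig
import Pool.Agent.Run7.h87.Interp

set_option autoImplicit false

namespace Pool.Agent.Run7.h87

open Finset

attribute [local instance 10] Classical.propDecidable

/-- Assembling: `T` on `N`, `S` on `C`, arcs of `A x` joined to `x`. -/
def Asm {N C : Type*} (T : N → N → N → Prop) (S : C → C → C → Prop) (A : N → Finset (C × C)) :
    N ⊕ C → N ⊕ C → N ⊕ C → Prop := fun u v w =>
  match u, v, w with
  | Sum.inl a, Sum.inl b, Sum.inl c => T a b c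
  | Sum.inl x, Sum.inr w, Sum.inr w' => (w, w') ∈ A x
  | Sum.inr w, Sum.inr w', Sum.inl x => (w, w') ∈ A x
  | Sum.inr w', Sum.inl x, Sum.inr w => (w, w') ∈ A x
  | Sum.inr a, Sum.inr b, Sum.inr c => S a b c
  | _, _, _ => False

variable {N C : Type*} {T : N → N → N → Prop} {S : C → C → C → Prop} {A : N → Finset (C × C)}

theorem asm_isPMTS (hT : IsPMTS T) (hS : IsPMTS S) (hA : ∀ x, PInj (A x))
    (hd : ∀ x y, x ≠ y → Disjoint (A x) (A y))
    (hne : ∀ x, ∀ p ∈ A x, p.1 ≠ p.2) (hun : ∀ x, ∀ p ∈ A x, ¬ Cov S p.1 p.2) :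
    IsPMTS (Asm T S A) := by
  refine ⟨?_, ?_, ?_⟩
  · rintro (a | i) (b | j) (c | k) h
    · exact hT.cyc _ _ _ h
    · exact h
    · exact h
    · exact h
    · exact h
    · exact h
    · exact h
    · exact hS.cyc _ _ _ h
  · rintro (a | i) (b | j) (c | k) h
    · exact fun e => hT.ne _ _ _ h (Sum.inl_injective e)
    · exact absurd h id
    · simp
    · simp
    · simp
    · simp
    · exact fun e => hne c _ h (Sum.inr_injective e)
    · exact fun e => hS.ne _ _ _ h (Sum.inr_injective e)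
  · rintro (a | i) (b | j) (c | k) (c' | k') h h'
    · rw [hT.uniq _ _ _ _ h h']
    · exact absurd h' id
    · exact absurd h id
    · exact absurd h id
    · exact absurd h id
    · exact absurd h id
    · exact absurd h' id
    · have h1 : (j, k) ∈ A a := h
      have h2 : (j, k') ∈ A a := h'
      have := (hA a).1 _ h1 _ h2 rfl
      rw [Prod.ext_iff] at this
      exact congrArg Sum.inr this.2
    · exact absurd h id
    · exact absurd h id
    · exact absurd h' id
    · have h1 : (k, i) ∈ A b := h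
      have h2 : (k', i) ∈ A b := h'
      have := (hA b).2 _ h1 _ h2 rfl
      rw [Prod.ext_iff] at this
      exact congrArg Sum.inr this.1
    · have h1 : (i, j) ∈ A c := h
      have h2 : (i, j) ∈ A c' := h'
      by_contra hne'
      exact (disjoint_left.1 (hd c c' (fun e => hne' (by rw [e])))) h1 h2
    · have h1 : (i, j) ∈ A c := h
      exact absurd ⟨k', h'⟩ (hun c _ h1)
    · have h1 : (i, j) ∈ A c' := h'
      exact absurd ⟨k, h⟩ (hun c' _ h1)
    · rw [hS.uniq _ _ _ _ h h']

theorem ldeg_asm_inl [Fintype N] [Fintype C] (x : N) (hA : PInj (A x)) :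
    ldeg (Asm T S A) (Sum.inl x) + (A x).card = ldeg T x + Fintype.card C := by
  classical
  have hcov1 : ∀ y, Lv (Asm T S A) (Sum.inl x) (Sum.inl y) ↔ Lv T x y := by
    intro y
    constructor
    · rintro ⟨h1, h2⟩
      exact ⟨fun e => h1 (by rw [e]), fun ⟨c, hc⟩ => h2 ⟨Sum.inl c, hc⟩⟩
    · rintro ⟨h1, h2⟩
      refine ⟨fun e => h1 (Sum.inl_injective e), ?_⟩
      rintro ⟨c | c, hc⟩
      · exact h2 ⟨c, hc⟩
      · exact hc
  have hcov2 : ∀ w, Lv (Asm T S A) (Sum.inl x) (Sum.inr w) ↔ w ∉ (A x).image Prod.fst := by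
    intro w
    constructor
    · rintro ⟨_, h2⟩ h
      obtain ⟨p, hp, rfl⟩ := mem_image.1 h
      exact h2 ⟨Sum.inr p.2, hp⟩
    · intro h
      refine ⟨by simp, ?_⟩
      rintro ⟨c | c, hc⟩
      · exact hc
      · exact h (mem_image.2 ⟨(w, c), hc, rfl⟩)
  have hinj : Set.InjOn Prod.fst (A x : Set (C × C)) := fun p hp q hq e => hA.1 p hp q hq e
  have e0 : (univ.filter (fun v : N ⊕ C => Lv (Asm T S A) (Sum.inl x) v)) =
      (univ.filter (fun y : N => Lv T x y)).disjSum ((A x).image Prod.fst)ᶜ := by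
    ext v
    rcases v with y | w
    · simp only [mem_filter, mem_univ, true_and, inl_mem_disjSum]; exact hcov1 y
    · simp only [mem_filter, mem_univ, true_and, inr_mem_disjSum, mem_compl]; exact hcov2 w
  unfold ldeg
  rw [e0, card_disjSum, card_compl, card_image_of_injOn hinj]
  have : (A x).card ≤ Fintype.card C := by
    rw [← card_image_of_injOn hinj]; exact card_le_univ _
  omega

theorem cdeg_asm_inr [Fintype N] [Fintype C] (hA : ∀ x, PInj (A x))
    (hd : ∀ x y, x ≠ y → Disjoint (A x) (A y)) (hun : ∀ x, ∀ p ∈ A x, ¬ Cov S p.1 p.2)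
    (G : C → C → Prop) (hG : ∀ w w', G w w' ↔ ∃ x, (w, w') ∈ A x) (w : C) :
    cdeg (Asm T S A) (Sum.inr w) = cdeg S w + (univ.filter (fun w' => G w w')).card
      + (univ.filter (fun w' => G w' w)).card := by
  classical
  have hcov1 : ∀ x, Cov (Asm T S A) (Sum.inr w) (Sum.inl x) ↔ ∃ w', (w', w) ∈ A x := by
    intro x
    constructor
    · rintro ⟨c | c, hc⟩
      · exact absurd hc id
      · exact ⟨c, hc⟩
    · rintro ⟨w', h⟩
      exact ⟨Sum.inr w', h⟩
  have hcov2 : ∀ w', Cov (Asm T S A) (Sum.inr w) (Sum.inr w') ↔ (Cov S w w' ∨ G w w') := by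
    intro w'
    rw [hG]
    constructor
    · rintro ⟨c | c, hc⟩
      · exact Or.inr ⟨c, hc⟩
      · exact Or.inl ⟨c, hc⟩
    · rintro (⟨c, h⟩ | ⟨x, h⟩)
      · exact ⟨Sum.inr c, h⟩
      · exact ⟨Sum.inl x, h⟩
  have e0 : (univ.filter (fun v : N ⊕ C => Cov (Asm T S A) (Sum.inr w) v)) =
      (univ.filter (fun x : N => ∃ w', (w', w) ∈ A x)).disjSum
        ((univ.filter (fun w' => Cov S w w')) ∪ (univ.filter (fun w' => G w w'))) := by
    ext v
    rcases v with y | w'
    · simp only [mem_filter, mem_univ, true_and, inl_mem_disjSum]; exact hcov1 y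
    · simp only [mem_filter, mem_univ, true_and, inr_mem_disjSum, mem_union]; exact hcov2 w'
  have e1 : (univ.filter (fun x : N => ∃ w', (w', w) ∈ A x)).card =
      (univ.filter (fun w' => G w' w)).card := by
    symm
    refine card_bij (fun w' hw' => Classical.choose ((hG _ _).1 (mem_filter.1 hw').2)) ?_ ?_ ?_
    · intro w' hw'
      simp only [mem_filter, mem_univ, true_and]
      exact ⟨w', Classical.choose_spec ((hG _ _).1 (mem_filter.1 hw').2)⟩
    · intro w1 hw1 w2 hw2 e
      have h1 := Classical.choose_spec ((hG _ _).1 (mem_filter.1 hw1).2)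
      have h2 := Classical.choose_spec ((hG _ _).1 (mem_filter.1 hw2).2)
      rw [← e] at h2
      have := (hA _).2 _ h1 _ h2 rfl
      rw [Prod.ext_iff] at this
      exact this.1
    · intro x hx
      obtain ⟨w', hw'⟩ := (mem_filter.1 hx).2
      have hGw : G w' w := (hG _ _).2 ⟨x, hw'⟩
      refine ⟨w', by simp only [mem_filter, mem_univ, true_and]; exact hGw, ?_⟩
      have h1 := Classical.choose_spec ((hG _ _).1 (mem_filter.1 (show w' ∈ univ.filter (fun w' => G w' w) from by
        simp only [mem_filter, mem_univ, true_and]; exact hGw)).2)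
      by_contra hne
      exact (disjoint_left.1 (hd _ _ hne)) h1 hw'
  unfold cdeg
  rw [e0, card_disjSum, card_union_of_disjoint, e1]
  · ring
  · rw [disjoint_filter]
    intro w' _ h1 h2
    obtain ⟨x, hx⟩ := (hG _ _).1 h2
    exact hun x _ hx h1

end Pool.Agent.Run7.h87
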