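import Pool.Agent.Run7.h87.Design2
import Pool.Agent.Run7.h87.Assemble

set_option autoImplicit false

namespace Pool.Agent.Run7.h87

open Finset

attribute [local instance 10] Classical.propDecidable

/-- Core embedding: points `N` with `|N| = n ≥ 5`, `n ≡ 0, 1 (mod 3)`, into order `n + 6 h`. -/
theorem embed_core {N : Type} [Fintype N] {T : N → N → N → Prop} (hT : IsPMTS T) (n h : ℕ)
    (hn : Fintype.card N = n) (hn5 : 3 ≤ n) (hn3 : n % 3 = 0 ∨ n % 3 = 1) (hh : n + 13 ≤ 3 * h) :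
    ∃ (V : Type) (_ : Fintype V) (R : V → V → V → Prop) (f : N → V), IsMTS R ∧
      Function.Injective f ∧ Fintype.card V = n + 6 * h ∧
      ∀ a b c, T a b c → R (f a) (f b) (f c) := by
  classical
  -- parameters
  obtain ⟨k, kz, η, hk, hkz, hsum, hη, hη6⟩ : ∃ k kz η : ℕ, k % 2 = 1 ∧ kz % 2 = 1 ∧
      k + kz = 2 * h ∧ 3 * k = 3 * kz + η ∧ (η = 0 ∨ η = 6) := by
    by_cases ho : h % 2 = 1
    · exact ⟨h, h, 0, ho, ho, by omega, by omega, Or.inl rfl⟩
    · exact ⟨h + 1, h - 1, 6, by omega, by omega, by omega, by omega, Or.inr rfl⟩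
  have hz10 : n + 10 ≤ 3 * kz := by omega
  have : NeZero k := ⟨by omega⟩
  obtain ⟨T', hT', hTT', hmax⟩ := exists_maximal hT
  have hL2 := two_mul_leave_le hT' hmax
  have hL3 := three_dvd_leave hT' (by rw [hn]; exact hn3)
  rw [hn] at hL2
  set L := ∑ a, ldeg T' a with hL
  set Λ := L + n * η with hΛ
  have hΛ3 : Λ % 3 = 0 := by
    rcases hη6 with h0 | h0 <;> rw [hΛ, h0] <;> omega
  set c := 3 * k with hc
  have hcpos : 0 < c := by omega
  set q := Λ / c with hq
  set ρ := Λ % c with hρ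
  have hqr : c * q + ρ = Λ := Nat.div_add_mod Λ c
  have hρc : ρ < c := Nat.mod_lt _ hcpos
  have hρ3 : ρ % 3 = 0 := by
    have : ρ = Λ - 3 * (k * q) := by
      have : c * q = 3 * (k * q) := by rw [hc]; ring
      omega
    omega
  obtain ⟨p, hp⟩ : ∃ p, ρ = 3 * p := ⟨ρ / 3, by omega⟩
  -- the key inequality
  have hkey : 2 * q + 2 ≤ n - 1 + η := by
    by_contra hcon
    push Not at hcon
    have h1 : n + η ≤ 2 * q + 2 := by omega
    have h2 : 2 * (c * q) ≤ n ^ 2 + 2 * (n * η) := by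
      have : c * q ≤ Λ := by omega
      omega
    have h3 : n + 10 + η ≤ c := by omega
    have h4 : (n + 10 + η) * (2 * q) ≤ n ^ 2 + 2 * (n * η) := by
      calc (n + 10 + η) * (2 * q) ≤ c * (2 * q) := Nat.mul_le_mul_right _ h3
        _ = 2 * (c * q) := by ring
        _ ≤ _ := h2
    rcases hη6 with h0 | h0
    · rw [h0] at h4 h1
      simp only [add_zero, mul_zero] at h4 h1
      nlinarith
    · rw [h0] at h4 h1
      nlinarith
  obtain ⟨M, hM⟩ : ∃ M, n - 1 + η = 2 * q + 2 + M := ⟨n - 1 + η - (2 * q + 2), by omega⟩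
  obtain ⟨j, hj⟩ : ∃ j, j = M / 3 := ⟨_, rfl⟩
  obtain ⟨ε, hε⟩ : ∃ ε, ε = M % 3 := ⟨_, rfl⟩
  have hMj : M = 3 * j + ε := by omega
  obtain ⟨S, Q, F, R, hS, hQc, hF, hFc, hR, hFF, hFR, hRc, hav, hdeg⟩ :=
    design (k := k) hk ε j q p (by omega) (by omega) (by omega) (by omega)
  have hcardC : Fintype.card (ZMod k × ZMod 3) = c := by
    rw [Fintype.card_prod, ZMod.card, ZMod.card, hc, mul_comm]
  have hld : ∀ x, ldeg T' x + 1 ≤ n := by
    intro x
    have := ldeg_add_cdeg hT' x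
    omega
  obtain ⟨A, hA1, hA2, hA3, hA4⟩ := prescribed (C := ZMod k × ZMod 3) (univ : Finset N)
    (fun x => ldeg T' x + η) (fun x _ => by rw [hcardC]; have := hld x; omega) Q F R hF hFc hR hFF hFR
    (by
      rw [sum_add_distrib, sum_const, smul_eq_mul, Finset.card_univ, hn, ← hL, hQc, hRc, hcardC,
        ← hp, mul_comm q c, hqr])
  have hPI : ∀ x, PInj (A x) := fun x => hA1 x (mem_univ x)
  have hdis : ∀ x y, x ≠ y → Disjoint (A x) (A y) := fun x y hxy =>
    hA3 x (mem_univ x) y (mem_univ y) hxy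
  have hAiff : ∀ a, (∃ x, a ∈ A x) ↔ ((∃ g ∈ Q, a ∈ F g) ∨ a ∈ R) := by
    intro a
    rw [← hA4 a]
    constructor
    · rintro ⟨x, hx⟩; exact ⟨x, mem_univ x, hx⟩
    · rintro ⟨x, -, hx⟩; exact ⟨x, hx⟩
  have hun : ∀ x, ∀ a ∈ A x, ¬ Cov S a.1 a.2 := fun x a ha => (hav a ((hAiff a).1 ⟨x, ha⟩)).2
  have hne : ∀ x, ∀ a ∈ A x, a.1 ≠ a.2 := fun x a ha => (hav a ((hAiff a).1 ⟨x, ha⟩)).1
  have hAsm : IsPMTS (Asm T' S A) := asm_isPMTS hT' hS hPI hdis hne hun
  have hcardU : Fintype.card (N ⊕ (ZMod k × ZMod 3)) = n + c := by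
    rw [Fintype.card_sum, hn, hcardC]
  have hreg : ∀ v, ldeg (Asm T' S A) v = 3 * kz := by
    rintro (x | w)
    · have h1 := ldeg_asm_inl (T := T') (S := S) x (hPI x)
      rw [hA2 x (mem_univ x), hcardC] at h1
      omega
    · have h1 := ldeg_add_cdeg hAsm (Sum.inr w)
      obtain ⟨G, hG⟩ : ∃ G : ZMod k × ZMod 3 → ZMod k × ZMod 3 → Prop,
        ∀ w w', G w w' ↔ ∃ x, (w, w') ∈ A x := ⟨fun w w' => ∃ x, (w, w') ∈ A x, fun _ _ => Iff.rfl⟩
      rw [cdeg_asm_inr hPI hdis hun G hG, hcardU] at h1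
      have h2 := hdeg G (fun w w' => (hG w w').trans (hAiff (w, w'))) w
      omega
  obtain ⟨Qz, hQz⟩ := mts_three_mul hkz
  obtain ⟨R', hR', hext⟩ := hub_completion hAsm hreg hQz
  refine ⟨(N ⊕ (ZMod k × ZMod 3)) ⊕ Fin (3 * kz), inferInstance, R',
    fun x => Sum.inl (Sum.inl x), hR', ?_, ?_, ?_⟩
  · intro a b e
    exact Sum.inl_injective (Sum.inl_injective e)
  · rw [Fintype.card_sum, hcardU, Fintype.card_fin]
    omega
  · intro a b c' habc
    exact hext _ _ _ (hTT' _ _ _ habc)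

/-- Main theorem. -/
theorem embed_main (n : ℕ) (p : Fin n → Fin n → Option (Fin n))
    (_hl : ∀ x y y' z : Fin n, p x y = some z → p x y' = some z → y = y')
    (_hr : ∀ x x' y z : Fin n, p x y = some z → p x' y = some z → x = x')
    (hid : ∀ x z : Fin n, p x x = some z → z = x)
    (hcyc : ∀ x y z : Fin n, p x y = some z → p y z = some x)
    (t : ℕ) (ht : 3 * n + 50 ≤ t) (ht3 : t % 3 = 0 ∨ t % 3 = 1) :
    ∃ op : Fin t → Fin t → Fin t,
      (∀ x : Fin t, op x x = x) ∧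
      (∀ x y : Fin t, op x (op y x) = y) ∧
      ∃ f : Fin n ↪ Fin t, ∀ x y z : Fin n, p x y = some z → op (f x) (f y) = f z := by
  classical
  -- choose the number of dummy points
  obtain ⟨δ, h, h1, h2, h3⟩ : ∃ δ h : ℕ, 3 ≤ n + δ ∧ n + δ + 13 ≤ 3 * h ∧ t = n + δ + 6 * h := by
    by_cases hn : 3 ≤ n
    · refine ⟨(t - n) % 6, (t - n) / 6, ?_, ?_, ?_⟩ <;> omega
    · refine ⟨3 + (t - n - 3) % 6, (t - n - 3) / 6, ?_, ?_, ?_⟩ <;> omega
  let T : Fin n ⊕ Fin δ → Fin n ⊕ Fin δ → Fin n ⊕ Fin δ → Prop := fun a b c =>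
    match a, b, c with
    | Sum.inl x, Sum.inl y, Sum.inl z => x ≠ y ∧ p x y = some z
    | _, _, _ => False
  have hT : IsPMTS T := by
    refine ⟨?_, ?_, ?_⟩
    · rintro (a | a) (b | b) (c | c) h
      · obtain ⟨hne, hp⟩ := h
        refine ⟨?_, hcyc _ _ _ hp⟩
        intro e
        have h5 : p b b = some a := by
          have := hcyc _ _ _ hp
          rw [← e] at this
          exact this
        exact hne (hid _ _ h5)
      all_goals exact absurd h id
    · rintro (a | a) (b | b) (c | c) h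
      · exact fun e => h.1 (Sum.inl_injective e)
      all_goals exact absurd h id
    · rintro (a | a) (b | b) (c | c) (c' | c') h h'
      · have e := h.2.symm.trans h'.2
        rw [Option.some.inj e]
      all_goals first | exact absurd h id | exact absurd h' id
  obtain ⟨V, _, R, f, hR, hf, hV, hemb⟩ := embed_core hT (n + δ) h
    (by rw [Fintype.card_sum, Fintype.card_fin, Fintype.card_fin]) h1 (by omega) (by omega)
  obtain ⟨op, ho1, ho2, ho3⟩ := hR.exists_op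
  let e : V ≃ Fin t := Fintype.equivFinOfCardEq (by rw [hV, h3])
  refine ⟨fun x y => e (op (e.symm x) (e.symm y)), ?_, ?_,
    ⟨fun x => e (f (Sum.inl x)), ?_⟩, ?_⟩
  · intro x
    simp [ho1]
  · intro x y
    simp [ho2]
  · intro x y hxy
    exact Sum.inl_injective (hf (e.injective hxy))
  · intro x y z hp
    simp only [Function.Embedding.coeFn_mk, Equiv.symm_apply_apply]
    by_cases hxy : x = y
    · subst hxy
      rw [hid _ _ hp, ho1]
    · rw [ho3 _ _ _ (hemb (Sum.inl x) (Sum.inl y) (Sum.inl z) ⟨hxy, hp⟩)]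

end Pool.Agent.Run7.h87
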