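import Mathlib

set_option autoImplicit false

namespace Pool.Agent.Run7.h87

open Finset

attribute [local instance 10] Classical.propDecidable

/-- A partial Mendelsohn triple system on `V`, given by the ternary relation
that `(a,b,c)` is one of the cyclic triples. -/
structure IsPMTS {V : Type*} (R : V → V → V → Prop) : Prop where
  cyc : ∀ a b c, R a b c → R b c a
  ne : ∀ a b c, R a b c → a ≠ b
  uniq : ∀ a b c c', R a b c → R a b c' → c = c'

/-- A Mendelsohn triple system on `V`. -/
def IsMTS {V : Type*} (R : V → V → V → Prop) : Prop :=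
  IsPMTS R ∧ ∀ a b, a ≠ b → ∃ c, R a b c

/-- The ordered pair `(a,b)` is covered by a triple. -/
def Cov {V : Type*} (R : V → V → V → Prop) (a b : V) : Prop := ∃ c, R a b c

/-- The ordered pair `(a,b)` is an arc of the leave. -/
def Lv {V : Type*} (R : V → V → V → Prop) (a b : V) : Prop := a ≠ b ∧ ¬ Cov R a b

variable {V : Type*} {R : V → V → V → Prop}

theorem IsPMTS.cyc2 (h : IsPMTS R) {a b c : V} (hr : R a b c) : R c a b :=
  h.cyc _ _ _ (h.cyc _ _ _ hr)

theorem Cov.ne (h : IsPMTS R) {a b : V} (hc : Cov R a b) : a ≠ b := by
  obtain ⟨c, hc⟩ := hc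
  exact h.ne _ _ _ hc

section Fin

variable [Fintype V]

/-- number of covered arcs leaving `a`. -/
noncomputable def cdeg (R : V → V → V → Prop) (a : V) : ℕ := (univ.filter (fun b => Cov R a b)).card

/-- number of leave arcs leaving `a`. -/
noncomputable def ldeg (R : V → V → V → Prop) (a : V) : ℕ := (univ.filter (fun b => Lv R a b)).card

theorem card_cov_in (h : IsPMTS R) (a : V) :
    (univ.filter (fun b => Cov R b a)).card = cdeg R a := by
  classical
  unfold cdeg
  refine Finset.card_bij (fun b hb => Classical.choose (mem_filter.1 hb).2) ?_ ?_ ?_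
  · intro b hb
    have := Classical.choose_spec (mem_filter.1 hb).2
    simp only [mem_filter, mem_univ, true_and]
    exact ⟨b, h.cyc _ _ _ this⟩
  · intro b hb b' hb' e
    have h1 := Classical.choose_spec (mem_filter.1 hb).2
    have h2 := Classical.choose_spec (mem_filter.1 hb').2
    rw [← e] at h2
    exact h.uniq _ _ _ _ (h.cyc _ _ _ h1) (h.cyc _ _ _ h2)
  · intro c hc
    obtain ⟨b, hb⟩ := (mem_filter.1 hc).2
    have hb2 : R b a c := h.cyc2 hb
    refine ⟨b, by simp only [mem_filter, mem_univ, true_and]; exact ⟨c, hb2⟩, ?_⟩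
    have := Classical.choose_spec (mem_filter.1 (show b ∈ univ.filter (fun b => Cov R b a) from by
      simp only [mem_filter, mem_univ, true_and]; exact ⟨c, hb2⟩)).2
    exact h.uniq _ _ _ _ this hb2

theorem ldeg_add_cdeg (h : IsPMTS R) (a : V) :
    ldeg R a + cdeg R a + 1 = Fintype.card V := by
  classical
  unfold ldeg cdeg
  have e : (univ : Finset V) = (univ.filter (fun b => Lv R a b)) ∪ (univ.filter (fun b => Cov R a b)) ∪ {a} := by
    ext b
    simp only [mem_univ, mem_union, mem_filter, true_and, mem_singleton, true_iff]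
    by_cases hab : a = b
    · right; exact hab.symm
    · left
      by_cases hc : Cov R a b
      · right; exact hc
      · left; exact ⟨hab, hc⟩
  have d1 : Disjoint (univ.filter (fun b => Lv R a b)) (univ.filter (fun b => Cov R a b)) := by
    rw [disjoint_filter]
    intro b _ hb
    exact hb.2
  have d2 : Disjoint ((univ.filter (fun b => Lv R a b)) ∪ (univ.filter (fun b => Cov R a b))) {a} := by
    rw [disjoint_singleton_right]
    simp only [mem_union, mem_filter, mem_univ, true_and, not_or]
    refine ⟨fun hl => hl.1 rfl, fun hc => ?_⟩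
    exact (Cov.ne h hc) rfl
  rw [← Finset.card_univ]
  conv_rhs => rw [e]
  rw [card_union_of_disjoint d2, card_union_of_disjoint d1, card_singleton]

theorem card_lv_in (h : IsPMTS R) (a : V) :
    (univ.filter (fun b => Lv R b a)).card = ldeg R a := by
  classical
  have h1 := ldeg_add_cdeg h a
  have h2 := card_cov_in h a
  have e : (univ : Finset V) = (univ.filter (fun b => Lv R b a)) ∪ (univ.filter (fun b => Cov R b a)) ∪ {a} := by
    ext b
    simp only [mem_univ, mem_union, mem_filter, true_and, mem_singleton, true_iff]
    by_cases hab : b = a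
    · right; exact hab
    · left
      by_cases hc : Cov R b a
      · right; exact hc
      · left; exact ⟨hab, hc⟩
  have d1 : Disjoint (univ.filter (fun b => Lv R b a)) (univ.filter (fun b => Cov R b a)) := by
    rw [disjoint_filter]
    intro b _ hb
    exact hb.2
  have d2 : Disjoint ((univ.filter (fun b => Lv R b a)) ∪ (univ.filter (fun b => Cov R b a))) {a} := by
    rw [disjoint_singleton_right]
    simp only [mem_union, mem_filter, mem_univ, true_and, not_or]
    refine ⟨fun hl => hl.1 rfl, fun hc => ?_⟩
    exact (Cov.ne h hc) rfl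
  have h3 : Fintype.card V = (univ.filter (fun b => Lv R b a)).card + (univ.filter (fun b => Cov R b a)).card + 1 := by
    rw [← Finset.card_univ]
    conv_lhs => rw [e]
    rw [card_union_of_disjoint d2, card_union_of_disjoint d1, card_singleton]
  omega

end Fin

/-- A Mendelsohn triple system gives a Mendelsohn quasigroup operation. -/
theorem IsMTS.exists_op (h : IsMTS R) :
    ∃ op : V → V → V, (∀ x, op x x = x) ∧ (∀ x y, op x (op y x) = y) ∧
      ∀ a b c, R a b c → op a b = c := by
  classical
  obtain ⟨hp, hex⟩ := h
  let op : V → V → V := fun a b => if hab : a = b then a else Classical.choose (hex a b hab)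
  have hop : ∀ a b (hab : a ≠ b), R a b (op a b) := by
    intro a b hab
    simp only [op, dif_neg hab]
    exact Classical.choose_spec (hex a b hab)
  have hid : ∀ x, op x x = x := fun x => by simp [op]
  refine ⟨op, hid, ?_, ?_⟩
  · intro x y
    by_cases hxy : x = y
    · subst hxy; rw [hid, hid]
    · have h1 := hop y x (Ne.symm hxy)
      have h2 : R x (op y x) y := hp.cyc _ _ _ h1
      exact hp.uniq _ _ _ _ (hop x (op y x) (hp.ne _ _ _ h2)) h2
  · intro a b c habc
    exact hp.uniq _ _ _ _ (hop a b (hp.ne _ _ _ habc)) habc

end Pool.Agent.Run7.h87
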