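import Pool.Agent.Run7.h87.Basic

set_option autoImplicit false

namespace Pool.Agent.Run7.h87

open Finset

attribute [local instance 10] Classical.propDecidable

/-- Union of two partial systems with disjoint coverage. -/
theorem IsPMTS.union {V : Type*} {R1 R2 : V → V → V → Prop} (h1 : IsPMTS R1) (h2 : IsPMTS R2)
    (hd : ∀ a b, Cov R1 a b → Cov R2 a b → False) :
    IsPMTS (fun a b c => R1 a b c ∨ R2 a b c) := by
  refine ⟨?_, ?_, ?_⟩
  · rintro a b c (h | h)
    · exact Or.inl (h1.cyc _ _ _ h)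
    · exact Or.inr (h2.cyc _ _ _ h)
  · rintro a b c (h | h)
    · exact h1.ne _ _ _ h
    · exact h2.ne _ _ _ h
  · rintro a b c c' (h | h) (h' | h')
    · exact h1.uniq _ _ _ _ h h'
    · exact (hd a b ⟨c, h⟩ ⟨c', h'⟩).elim
    · exact (hd a b ⟨c', h'⟩ ⟨c, h⟩).elim
    · exact h2.uniq _ _ _ _ h h'

theorem cov_union {V : Type*} {R1 R2 : V → V → V → Prop} (a b : V) :
    Cov (fun a b c => R1 a b c ∨ R2 a b c) a b ↔ Cov R1 a b ∨ Cov R2 a b := by
  constructor
  · rintro ⟨c, h | h⟩
    · exact Or.inl ⟨c, h⟩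
    · exact Or.inr ⟨c, h⟩
  · rintro (⟨c, h⟩ | ⟨c, h⟩)
    · exact ⟨c, Or.inl h⟩
    · exact ⟨c, Or.inr h⟩

theorem cdeg_union {V : Type*} [Fintype V] {R1 R2 : V → V → V → Prop}
    (hd : ∀ a b, Cov R1 a b → Cov R2 a b → False) (a : V) :
    cdeg (fun a b c => R1 a b c ∨ R2 a b c) a = cdeg R1 a + cdeg R2 a := by
  classical
  unfold cdeg
  rw [← card_union_of_disjoint]
  · congr 1
    ext b
    simp only [mem_filter, mem_univ, true_and, mem_union]
    exact cov_union a b
  · rw [disjoint_filter]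
    intro b _ h1 h2
    exact hd a b h1 h2

/-- A single cyclic triple. -/
def Tri {V : Type*} (a b c : V) (x y z : V) : Prop :=
  (x = a ∧ y = b ∧ z = c) ∨ (x = b ∧ y = c ∧ z = a) ∨ (x = c ∧ y = a ∧ z = b)

theorem tri_isPMTS {V : Type*} {a b c : V} (hab : a ≠ b) (hbc : b ≠ c) (hca : c ≠ a) :
    IsPMTS (Tri a b c) := by
  refine ⟨?_, ?_, ?_⟩
  · rintro x y z (⟨rfl, rfl, rfl⟩ | ⟨rfl, rfl, rfl⟩ | ⟨rfl, rfl, rfl⟩)
    · exact Or.inr (Or.inl ⟨rfl, rfl, rfl⟩)
    · exact Or.inr (Or.inr ⟨rfl, rfl, rfl⟩)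
    · exact Or.inl ⟨rfl, rfl, rfl⟩
  · rintro x y z (⟨rfl, rfl, rfl⟩ | ⟨rfl, rfl, rfl⟩ | ⟨rfl, rfl, rfl⟩)
    · exact hab
    · exact hbc
    · exact hca
  · rintro x y z z' (⟨rfl, rfl, rfl⟩ | ⟨rfl, rfl, rfl⟩ | ⟨rfl, rfl, rfl⟩)
      (⟨h1, h2, h3⟩ | ⟨h1, h2, h3⟩ | ⟨h1, h2, h3⟩)
    · exact h3.symm
    · exact (hab h1).elim
    · exact (hca h1.symm).elim
    · exact (hab h1.symm).elim
    · exact h3.symm
    · exact (hbc h1).elim
    · exact (hca h1).elim
    · exact (hbc h1.symm).elim
    · exact h3.symm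

theorem exists_maximal_aux {V : Type*} [Fintype V] (m : ℕ) : ∀ {R : V → V → V → Prop}, IsPMTS R →
    (univ.filter (fun p : V × V => Lv R p.1 p.2)).card ≤ m →
    ∃ R' : V → V → V → Prop, IsPMTS R' ∧ (∀ a b c, R a b c → R' a b c) ∧
      ∀ a b c, Lv R' a b → Lv R' b c → Lv R' c a → False := by
  classical
  induction m with
  | zero =>
    intro R hR hm
    refine ⟨R, hR, fun _ _ _ h => h, ?_⟩
    intro a b c h _ _
    have : (a, b) ∈ univ.filter (fun p : V × V => Lv R p.1 p.2) := by
      simp only [mem_filter, mem_univ, true_and]; exact h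
    rw [card_eq_zero.1 (Nat.le_zero.1 hm)] at this
    exact absurd this (notMem_empty _)
  | succ m ih =>
    intro R hR hm
    by_cases hex : ∃ a b c, Lv R a b ∧ Lv R b c ∧ Lv R c a
    · obtain ⟨a, b, c, h1, h2, h3⟩ := hex
      have ht : IsPMTS (Tri a b c) := tri_isPMTS h1.1 h2.1 h3.1
      have hd : ∀ x y, Cov R x y → Cov (Tri a b c) x y → False := by
        rintro x y hc ⟨z, (⟨rfl, rfl, rfl⟩ | ⟨rfl, rfl, rfl⟩ | ⟨rfl, rfl, rfl⟩)⟩
        · exact h1.2 hc
        · exact h2.2 hc
        · exact h3.2 hc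
      have hu := hR.union ht hd
      have hlt : (univ.filter (fun p : V × V => Lv (fun x y z => R x y z ∨ Tri a b c x y z) p.1 p.2)).card
          < (univ.filter (fun p : V × V => Lv R p.1 p.2)).card := by
        apply card_lt_card
        rw [ssubset_iff_of_subset]
        · refine ⟨(a, b), ?_, ?_⟩
          · simp only [mem_filter, mem_univ, true_and]; exact h1
          · simp only [mem_filter, mem_univ, true_and]
            intro h
            exact h.2 ⟨c, Or.inr (Or.inl ⟨rfl, rfl, rfl⟩)⟩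
        · intro p hp
          simp only [mem_filter, mem_univ, true_and] at hp ⊢
          exact ⟨hp.1, fun ⟨z, hz⟩ => hp.2 ⟨z, Or.inl hz⟩⟩
      obtain ⟨R', k1, k2, k3⟩ := ih hu (by omega)
      exact ⟨R', k1, fun x y z h => k2 x y z (Or.inl h), k3⟩
    · push Not at hex
      exact ⟨R, hR, fun _ _ _ h => h, fun a b c h1 h2 h3 => hex a b c h1 h2 h3⟩

/-- Every finite partial MTS extends, on the same points, to one whose leave has no directed
triangle. -/
theorem exists_maximal {V : Type*} [Fintype V] {R : V → V → V → Prop} (hR : IsPMTS R) :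
    ∃ R' : V → V → V → Prop, IsPMTS R' ∧ (∀ a b c, R a b c → R' a b c) ∧
      ∀ a b c, Lv R' a b → Lv R' b c → Lv R' c a → False :=
  exists_maximal_aux _ hR le_rfl

/-- total number of leave arcs of a maximal partial MTS: `2 |L| ≤ n²`. -/
theorem two_mul_leave_le {V : Type*} [Fintype V] {R : V → V → V → Prop} (hR : IsPMTS R)
    (hmax : ∀ a b c, Lv R a b → Lv R b c → Lv R c a → False) :
    2 * (∑ a, ldeg R a) ≤ Fintype.card V ^ 2 := by
  classical
  set n := Fintype.card V with hn
  have hsum : ∀ a b, Lv R a b → ldeg R a + ldeg R b ≤ n := by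
    intro a b hab
    rw [← card_lv_in hR a]
    unfold ldeg
    rw [← card_union_of_disjoint, hn, ← Finset.card_univ]
    · exact card_le_card (subset_univ _)
    · rw [disjoint_filter]
      intro c _ h1 h2
      exact hmax a b c hab h2 h1
  -- sum over arcs
  have e1 : ∑ a, ∑ b, (if Lv R a b then (ldeg R a + ldeg R b) else 0) ≤
      ∑ a, ∑ b, (if Lv R a b then n else 0) := by
    apply sum_le_sum; intro a _
    apply sum_le_sum; intro b _
    split_ifs with h
    · exact hsum a b h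
    · exact le_rfl
  have e2 : ∑ a, ∑ b, (if Lv R a b then n else 0) = n * ∑ a, ldeg R a := by
    rw [mul_sum]
    apply sum_congr rfl; intro a _
    rw [← sum_filter, sum_const, smul_eq_mul, mul_comm]
    rfl
  have e3 : ∑ a, ∑ b, (if Lv R a b then (ldeg R a + ldeg R b) else 0) = 2 * ∑ a, ldeg R a ^ 2 := by
    have : ∀ a b, (if Lv R a b then (ldeg R a + ldeg R b) else 0) =
        (if Lv R a b then ldeg R a else 0) + (if Lv R a b then ldeg R b else 0) := by
      intro a b; split_ifs <;> rfl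
    simp_rw [this, sum_add_distrib]
    rw [two_mul]
    congr 1
    · apply sum_congr rfl; intro a _
      rw [← sum_filter, sum_const, smul_eq_mul, sq]
      rfl
    · rw [sum_comm]
      apply sum_congr rfl; intro b _
      rw [← sum_filter, sum_const, smul_eq_mul, card_lv_in hR b, sq]
  have e4 : (∑ a, ldeg R a) ^ 2 ≤ n * ∑ a, ldeg R a ^ 2 := by
    have := sq_sum_le_card_mul_sum_sq (s := (univ : Finset V)) (f := fun a => ldeg R a)
    rw [Finset.card_univ] at this
    exact this
  rw [e2, e3] at e1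
  set S := ∑ a, ldeg R a with hS
  rcases Nat.eq_zero_or_pos S with h0 | h0
  · rw [h0]; simp
  · have h5 : 2 * S * S ≤ n ^ 2 * S := by
      calc 2 * S * S = 2 * S ^ 2 := by ring
        _ ≤ 2 * (n * ∑ a, ldeg R a ^ 2) := Nat.mul_le_mul_left _ e4
        _ = n * (2 * ∑ a, ldeg R a ^ 2) := by ring
        _ ≤ n * (n * S) := Nat.mul_le_mul_left _ e1
        _ = n ^ 2 * S := by ring
    exact Nat.le_of_mul_le_mul_right h5 h0

/-- the number of covered arcs is divisible by 3. -/
theorem three_dvd_cov {V : Type*} [Fintype V] {R : V → V → V → Prop} (hR : IsPMTS R) :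
    3 ∣ ∑ a, cdeg R a := by
  classical
  have : Fact (Nat.Prime 3) := ⟨Nat.prime_three⟩
  let f : {x : V × V × V // R x.1 x.2.1 x.2.2} → {x : V × V × V // R x.1 x.2.1 x.2.2} :=
    fun x => ⟨(x.1.2.1, x.1.2.2, x.1.1), hR.cyc _ _ _ x.2⟩
  have hf : (show Function.End _ from f) ^ 3 ^ 1 = 1 := by
    funext x
    show f (f (f x)) = x
    rfl
  have key := Equiv.Perm.card_fixedPoints_modEq (p := 3) (n := 1) (f := (show Function.End _ from f)) hf
  have hfix : Fintype.card (Function.fixedPoints f) = 0 := by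
    rw [Fintype.card_eq_zero_iff]
    constructor
    rintro ⟨x, hx⟩
    have h1 : f x = x := hx
    have h2 : x.1.2.1 = x.1.1 := by
      have := congrArg (fun y => y.1.1) h1
      exact this
    exact hR.ne _ _ _ x.2 h2.symm
  have hcard : Fintype.card {x : V × V × V // R x.1 x.2.1 x.2.2} = ∑ a, cdeg R a := by
    have : (∑ a, cdeg R a) = (univ.sigma (fun a : V => univ.filter (fun b => Cov R a b))).card := by
      rw [card_sigma]; rfl
    rw [this, Fintype.card_subtype]
    refine card_bij (fun x _ => (⟨x.1, x.2.1⟩ : (_ : V) × V)) ?_ ?_ ?_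
    · rintro ⟨a, b, c⟩ h
      simp only [mem_filter, mem_univ, true_and] at h
      simp only [mem_sigma, mem_filter, mem_univ, true_and]
      exact ⟨c, h⟩
    · rintro ⟨a, b, c⟩ h ⟨a', b', c'⟩ h' e
      simp only [mem_filter, mem_univ, true_and] at h h'
      simp only [Sigma.mk.injEq, heq_eq_eq] at e
      obtain ⟨rfl, rfl⟩ := e
      rw [hR.uniq _ _ _ _ h h']
    · rintro ⟨a, b⟩ h
      simp only [mem_sigma, mem_filter, mem_univ, true_and] at h
      obtain ⟨c, hc⟩ := h
      exact ⟨(a, b, c), by simp only [mem_filter, mem_univ, true_and]; exact hc, rfl⟩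
  rw [← hcard]
  have h3 : Fintype.card {x : V × V × V // R x.1 x.2.1 x.2.2} ≡ 0 [MOD 3] := by
    refine key.trans ?_
    have : Fintype.card (Function.fixedPoints (show Function.End _ from f)) = 0 := by
      rw [← hfix]
    rw [this]
  exact (Nat.modEq_zero_iff_dvd).1 h3

theorem sum_ldeg_add {V : Type*} [Fintype V] {R : V → V → V → Prop} (hR : IsPMTS R) :
    ∑ a, ldeg R a + ∑ a, cdeg R a + Fintype.card V = Fintype.card V * Fintype.card V := by
  rw [← sum_add_distrib]
  have : ∀ a ∈ (univ : Finset V), ldeg R a + cdeg R a = Fintype.card V - 1 := by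
    intro a _
    have := ldeg_add_cdeg hR a
    omega
  rw [sum_congr rfl this, sum_const, smul_eq_mul, Finset.card_univ]
  rcases Nat.eq_zero_or_pos (Fintype.card V) with h | h
  · rw [h]
  · obtain ⟨m, hm⟩ : ∃ m, Fintype.card V = m + 1 := ⟨Fintype.card V - 1, by omega⟩
    rw [hm]
    simp only [Nat.add_sub_cancel]
    ring

theorem three_dvd_leave {V : Type*} [Fintype V] {R : V → V → V → Prop} (hR : IsPMTS R)
    (hn : Fintype.card V % 3 = 0 ∨ Fintype.card V % 3 = 1) : 3 ∣ ∑ a, ldeg R a := by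
  have h1 := sum_ldeg_add hR
  have h2 := three_dvd_cov hR
  set n := Fintype.card V
  have h3 : (n * n) % 3 = n % 3 := by
    rw [Nat.mul_mod]
    rcases hn with h | h <;> rw [h]
  omega

end Pool.Agent.Run7.h87
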