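import Pool.Agent.Run7.h87.Basic2
import Pool.Agent.Run7.h87.Interp

set_option autoImplicit false

namespace Pool.Agent.Run7.h87

open Finset

attribute [local instance 10] Classical.propDecidable

theorem z21 : ∀ i : ZMod 3, i + 2 + 1 = i := by decide
theorem z12 : ∀ i : ZMod 3, i + 1 + 2 = i := by decide
theorem z22 : ∀ i : ZMod 3, i + 2 + 2 = i + 1 := by decide
theorem z11 : ∀ i : ZMod 3, i + 1 + 1 = i + 2 := by decide
theorem z1n : ∀ i : ZMod 3, i + 1 ≠ i := by decide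
theorem z2n : ∀ i : ZMod 3, i + 2 ≠ i := by decide
theorem z12n : ∀ i : ZMod 3, i + 1 ≠ i + 2 := by decide

/-- Cov of a translation-type relation gives the covered degree. -/
theorem cdeg_of_diff {C : Type*} [AddCommGroup C] [Fintype C] {R : C → C → C → Prop}
    (D : C → Finset C) (h : ∀ w w', Cov R w w' ↔ w' - w ∈ D w) (w : C) :
    cdeg R w = (D w).card := by
  classical
  unfold cdeg
  refine card_bij (fun w' _ => w' - w) ?_ ?_ ?_
  · intro w' hw'
    exact (h w w').1 (mem_filter.1 hw').2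
  · intro a _ b _ e
    exact sub_left_injective e
  · intro g hg
    refine ⟨g + w, ?_, by simp⟩
    simp only [mem_filter, mem_univ, true_and]
    rw [h]; simpa using hg

section

variable {k : ℕ}

theorem two_inj (hk : k % 2 = 1) {a b : ZMod k} (h : 2 * a = 2 * b) : a = b := by
  obtain ⟨m, hm⟩ : ∃ m, k = 2 * m + 1 := ⟨k / 2, by omega⟩
  have h1 : ((m : ZMod k) + 1) * 2 = 1 := by
    have : ((k : ℕ) : ZMod k) = 0 := ZMod.natCast_self k
    have h2 : ((2 * m + 1 : ℕ) : ZMod k) = 0 := by rw [← hm]; exact this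
    push_cast at h2
    linear_combination h2
  calc a = (((m : ZMod k) + 1) * 2) * a := by rw [h1, one_mul]
    _ = ((m : ZMod k) + 1) * (2 * a) := by ring
    _ = ((m : ZMod k) + 1) * (2 * b) := by rw [h]
    _ = (((m : ZMod k) + 1) * 2) * b := by ring
    _ = b := by rw [h1, one_mul]

/-- orbits of triples `w, w + (a,0), w + (2a,1)`. -/
def RO (J : Finset (ZMod k)) (w w' w'' : ZMod k × ZMod 3) : Prop :=
  ∃ a ∈ J, (w'.1 = w.1 + a ∧ w'.2 = w.2 ∧ w''.1 = w.1 + 2 * a ∧ w''.2 = w.2 + 1) ∨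
    (w'.1 = w.1 + a ∧ w'.2 = w.2 + 1 ∧ w''.1 = w.1 - a ∧ w''.2 = w.2) ∨
    (w'.1 = w.1 - 2 * a ∧ w'.2 = w.2 + 2 ∧ w''.1 = w.1 - a ∧ w''.2 = w.2 + 2)

theorem RO_isPMTS (hk : k % 2 = 1) {J : Finset (ZMod k)} (h0 : (0 : ZMod k) ∉ J) :
    IsPMTS (RO J) := by
  refine ⟨?_, ?_, ?_⟩
  · rintro ⟨x, i⟩ ⟨x', i'⟩ ⟨x'', i''⟩ ⟨a, ha, (⟨h1, h2, h3, h4⟩ | ⟨h1, h2, h3, h4⟩ | ⟨h1, h2, h3, h4⟩)⟩
    · simp only at h1 h2 h3 h4
      subst h1 h2 h3 h4
      refine ⟨a, ha, Or.inr (Or.inl ⟨?_, ?_, ?_, ?_⟩)⟩ <;> simp only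
      · ring
      · ring
    · simp only at h1 h2 h3 h4
      subst h1 h2 h3 h4
      refine ⟨a, ha, Or.inr (Or.inr ⟨?_, ?_, ?_, ?_⟩)⟩ <;> simp only
      · ring
      · exact (z12 _).symm
      · ring
      · exact (z12 _).symm
    · simp only at h1 h2 h3 h4
      subst h1 h2 h3 h4
      refine ⟨a, ha, Or.inl ⟨?_, ?_, ?_, ?_⟩⟩ <;> simp only
      · ring
      · ring
      · exact (z21 _).symm
  · rintro ⟨x, i⟩ ⟨x', i'⟩ ⟨x'', i''⟩ ⟨a, ha, (⟨h1, h2, h3, h4⟩ | ⟨h1, h2, h3, h4⟩ | ⟨h1, h2, h3, h4⟩)⟩ e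
    · simp only [Prod.mk.injEq] at h1 h2 e
      obtain ⟨e1, e2⟩ := e
      have : a = 0 := by rw [h1] at e1; simpa using e1.symm
      exact h0 (this ▸ ha)
    · simp only [Prod.mk.injEq] at h1 h2 e
      obtain ⟨e1, e2⟩ := e
      exact z1n i (by rw [← h2]; exact e2.symm)
    · simp only [Prod.mk.injEq] at h1 h2 e
      obtain ⟨e1, e2⟩ := e
      exact z2n i (by rw [← h2]; exact e2.symm)
  · rintro ⟨x, i⟩ ⟨x', i'⟩ ⟨x1, i1⟩ ⟨x2, i2⟩
      ⟨a, ha, (⟨h1, h2, h3, h4⟩ | ⟨h1, h2, h3, h4⟩ | ⟨h1, h2, h3, h4⟩)⟩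
      ⟨b, hb, (⟨g1, g2, g3, g4⟩ | ⟨g1, g2, g3, g4⟩ | ⟨g1, g2, g3, g4⟩)⟩ <;>
      simp only at h1 h2 h3 h4 g1 g2 g3 g4
    · have : a = b := by rw [h1] at g1; simpa using g1
      subst this
      rw [h3, h4, g3, g4]
    · exact absurd (g2.symm.trans h2) (z1n i)
    · exact absurd (g2.symm.trans h2) (z2n i)
    · exact absurd (h2.symm.trans g2) (z1n i)
    · have : a = b := by rw [h1] at g1; simpa using g1
      subst this
      rw [h3, h4, g3, g4]
    · exact absurd (h2.symm.trans g2) (z12n i)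
    · exact absurd (h2.symm.trans g2) (z2n i)
    · exact absurd (g2.symm.trans h2) (z12n i)
    · have : a = b := by
        apply two_inj hk
        rw [h1] at g1
        linear_combination -g1
      subst this
      rw [h3, h4, g3, g4]

/-- differences covered by `RO J`. -/
noncomputable def DRO (J : Finset (ZMod k)) : Finset (ZMod k × ZMod 3) :=
  (J ×ˢ {0}) ∪ (J ×ˢ {1}) ∪ ((J.image (fun a => -(2 * a))) ×ˢ {2})

theorem cov_RO {J : Finset (ZMod k)} (w w' : ZMod k × ZMod 3) :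
    Cov (RO J) w w' ↔ w' - w ∈ DRO J := by
  classical
  have z3 : ∀ i : ZMod 3, i - (i : ZMod 3) = 0 := by decide
  obtain ⟨x, i⟩ := w
  obtain ⟨x', i'⟩ := w'
  simp only [DRO, mem_union, mem_product, mem_singleton, mem_image, Prod.fst_sub, Prod.snd_sub]
  constructor
  · rintro ⟨w'', a, ha, (⟨h1, h2, -, -⟩ | ⟨h1, h2, -, -⟩ | ⟨h1, h2, -, -⟩)⟩
    · simp only at h1 h2
      left; left
      rw [h1, h2]
      exact ⟨by simpa using ha, by simp⟩
    · simp only at h1 h2
      left; right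
      rw [h1, h2]
      exact ⟨by simpa using ha, by simp⟩
    · simp only at h1 h2
      right
      rw [h1, h2]
      exact ⟨⟨a, ha, by ring⟩, by simp⟩
  · rintro ((⟨h1, h2⟩ | ⟨h1, h2⟩) | ⟨⟨a, ha, h1⟩, h2⟩)
    · exact ⟨(x + 2 * (x' - x), i + 1), x' - x, h1, Or.inl ⟨by simp, by
        show i' = i
        exact sub_eq_zero.1 h2, rfl, rfl⟩⟩
    · exact ⟨(x - (x' - x), i), x' - x, h1, Or.inr (Or.inl ⟨by simp, by
        show i' = i + 1
        rw [← h2]; ring, rfl, rfl⟩)⟩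
    · exact ⟨(x - a, i + 2), a, ha, Or.inr (Or.inr ⟨by
        show x' = x - 2 * a
        linear_combination -h1, by
        show i' = i + 2
        rw [← h2]; ring, rfl, rfl⟩)⟩

theorem card_DRO (hk : k % 2 = 1) (J : Finset (ZMod k)) : (DRO J).card = 3 * J.card := by
  classical
  unfold DRO
  rw [card_union_of_disjoint, card_union_of_disjoint, card_product, card_product, card_product,
    card_image_of_injective]
  · simp only [card_singleton]; ring
  · intro a b h
    simp only [neg_inj] at h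
    exact two_inj hk h
  · rw [disjoint_left]
    rintro ⟨x, i⟩ h1 h2
    simp only [mem_product, mem_singleton] at h1 h2
    rw [h1.2] at h2
    exact absurd h2.2 (by decide)
  · rw [disjoint_left]
    rintro ⟨x, i⟩ h1 h2
    simp only [mem_union, mem_product, mem_singleton] at h1 h2
    rcases h1 with h1 | h1
    · rw [h1.2] at h2
      exact absurd h2.2 (by decide)
    · rw [h1.2] at h2
      exact absurd h2.2 (by decide)

/-- fibre triples. -/
def FR (τ : ZMod 3 → ZMod k) (s1 s2 : ZMod k → Prop) (w w' w'' : ZMod k × ZMod 3) : Prop :=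
  w'.1 - τ w'.2 = w.1 - τ w.2 ∧ w''.1 - τ w''.2 = w.1 - τ w.2 ∧
    ((s1 (w.1 - τ w.2) ∧ w'.2 = w.2 + 1 ∧ w''.2 = w.2 + 2) ∨
     (s2 (w.1 - τ w.2) ∧ w'.2 = w.2 + 2 ∧ w''.2 = w.2 + 1))

theorem FR_isPMTS (τ : ZMod 3 → ZMod k) (s1 s2 : ZMod k → Prop) : IsPMTS (FR τ s1 s2) := by
  refine ⟨?_, ?_, ?_⟩
  · rintro w w' w'' ⟨h1, h2, (⟨h3, h4, h5⟩ | ⟨h3, h4, h5⟩)⟩
    · refine ⟨h2.trans h1.symm, h1.symm, Or.inl ⟨by rw [h1]; exact h3, ?_, ?_⟩⟩
      · rw [h5, h4, z11]
      · rw [h4, z12]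
    · refine ⟨h2.trans h1.symm, h1.symm, Or.inr ⟨by rw [h1]; exact h3, ?_, ?_⟩⟩
      · rw [h5, h4, z22]
      · rw [h4, z21]
  · rintro w w' w'' ⟨h1, h2, (⟨h3, h4, h5⟩ | ⟨h3, h4, h5⟩)⟩ e
    · rw [← e] at h4; exact z1n _ h4.symm
    · rw [← e] at h4; exact z2n _ h4.symm
  · rintro w w' v v' ⟨h1, h2, (⟨h3, h4, h5⟩ | ⟨h3, h4, h5⟩)⟩ ⟨g1, g2, (⟨g3, g4, g5⟩ | ⟨g3, g4, g5⟩)⟩
    · have e2 : v.2 = v'.2 := h5.trans g5.symm
      have e1 : v.1 = v'.1 := by
        have := h2.trans g2.symm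
        rw [e2] at this
        exact sub_left_injective this
      exact Prod.ext e1 e2
    · exact absurd (h4.symm.trans g4) (z12n _)
    · exact absurd (g4.symm.trans h4) (z12n _)
    · have e2 : v.2 = v'.2 := h5.trans g5.symm
      have e1 : v.1 = v'.1 := by
        have := h2.trans g2.symm
        rw [e2] at this
        exact sub_left_injective this
      exact Prod.ext e1 e2

/-- differences covered by the fibres at `w`. -/
noncomputable def DFR (τ : ZMod 3 → ZMod k) (s1 s2 : ZMod k → Prop) (w : ZMod k × ZMod 3) :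
    Finset (ZMod k × ZMod 3) :=
  (if s1 (w.1 - τ w.2) then {(τ (w.2 + 1) - τ w.2, 1)} else ∅) ∪
  (if s2 (w.1 - τ w.2) then {(τ (w.2 + 2) - τ w.2, 2)} else ∅)

theorem cov_FR (τ : ZMod 3 → ZMod k) (s1 s2 : ZMod k → Prop) (w w' : ZMod k × ZMod 3) :
    Cov (FR τ s1 s2) w w' ↔ w' - w ∈ DFR τ s1 s2 w := by
  classical
  obtain ⟨x, i⟩ := w
  obtain ⟨x', i'⟩ := w'
  simp only [DFR, mem_union]
  constructor
  · rintro ⟨⟨x'', i''⟩, h1, h2, (⟨h3, h4, h5⟩ | ⟨h3, h4, h5⟩)⟩
    · simp only at h1 h2 h3 h4 h5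
      left
      rw [if_pos h3, mem_singleton, h4]
      ext
      · simp only [Prod.fst_sub]
        rw [h4] at h1
        linear_combination h1
      · simp
    · simp only at h1 h2 h3 h4 h5
      right
      rw [if_pos h3, mem_singleton, h4]
      ext
      · simp only [Prod.fst_sub]
        rw [h4] at h1
        linear_combination h1
      · simp
  · rintro (h | h)
    · by_cases h3 : s1 (x - τ i)
      · rw [if_pos h3, mem_singleton] at h
        have e1 := congrArg Prod.fst h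
        have e2 := congrArg Prod.snd h
        simp only [Prod.fst_sub, Prod.snd_sub] at e1 e2
        have e3 : i' = i + 1 := by rw [← e2]; ring
        refine ⟨(x - τ i + τ (i + 2), i + 2), ?_, ?_, Or.inl ⟨h3, e3, rfl⟩⟩
        · simp only
          rw [e3]
          linear_combination e1
        · simp only; ring
      · rw [if_neg h3] at h; exact absurd h (notMem_empty _)
    · by_cases h3 : s2 (x - τ i)
      · rw [if_pos h3, mem_singleton] at h
        have e1 := congrArg Prod.fst h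
        have e2 := congrArg Prod.snd h
        simp only [Prod.fst_sub, Prod.snd_sub] at e1 e2
        have e3 : i' = i + 2 := by rw [← e2]; ring
        refine ⟨(x - τ i + τ (i + 1), i + 1), ?_, ?_, Or.inr ⟨h3, e3, rfl⟩⟩
        · simp only
          rw [e3]
          linear_combination e1
        · simp only; ring
      · rw [if_neg h3] at h; exact absurd h (notMem_empty _)

theorem card_DFR (τ : ZMod 3 → ZMod k) (s1 s2 : ZMod k → Prop) (w : ZMod k × ZMod 3) :
    (DFR τ s1 s2 w).card = (if s1 (w.1 - τ w.2) then 1 else 0) + (if s2 (w.1 - τ w.2) then 1 else 0) := by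
  classical
  unfold DFR
  rw [card_union_of_disjoint]
  · split_ifs <;> simp
  · split_ifs
    · rw [disjoint_singleton]
      intro h
      have := congrArg Prod.snd h
      simp only at this
      exact absurd this (by decide)
    · simp
    · simp
    · simp

end

end Pool.Agent.Run7.h87
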