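import Pool.Agent.Run7.h87.Design

set_option autoImplicit false

namespace Pool.Agent.Run7.h87

open Finset

attribute [local instance 10] Classical.propDecidable

/-- An MTS of order `3k` for `k` odd. -/
theorem mts_three_mul {k : ℕ} (hk : k % 2 = 1) :
    ∃ Q : Fin (3 * k) → Fin (3 * k) → Fin (3 * k) → Prop, IsMTS Q := by
  classical
  have : NeZero k := ⟨by omega⟩
  set J : Finset (ZMod k) := univ.erase 0 with hJ
  have h0 : (0 : ZMod k) ∉ J := by simp [hJ]
  have hJc : J.card = k - 1 := by rw [hJ, card_erase_of_mem (mem_univ _), Finset.card_univ, ZMod.card]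
  let R1 := RO J
  let R2 := FR (k := k) (fun _ => 0) (fun _ => True) (fun _ => True)
  have hd : ∀ a b, Cov R1 a b → Cov R2 a b → False := by
    intro a b h1 h2
    rw [cov_RO] at h1
    rw [cov_FR] at h2
    simp only [DFR, if_true, sub_self, mem_union, mem_singleton] at h2
    simp only [DRO, mem_union, mem_product, mem_singleton, mem_image] at h1
    rcases h2 with h2 | h2 <;> rw [h2] at h1 <;> simp only at h1
    · rcases h1 with (⟨h1, -⟩ | ⟨h1, -⟩) | ⟨-, h1⟩
      · exact h0 h1
      · exact h0 h1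
      · exact absurd h1 (by decide)
    · rcases h1 with (⟨h1, -⟩ | ⟨h1, -⟩) | ⟨⟨a, ha, h1⟩, -⟩
      · exact h0 h1
      · exact h0 h1
      · have : a = 0 := two_inj hk (by rw [mul_zero]; linear_combination -h1)
        exact h0 (this ▸ ha)
  have hp : IsPMTS (fun a b c => R1 a b c ∨ R2 a b c) :=
    (RO_isPMTS hk h0).union (FR_isPMTS _ _ _) hd
  have hdeg : ∀ a, ldeg (fun a b c => R1 a b c ∨ R2 a b c) a = 0 := by
    intro a
    have e := ldeg_add_cdeg hp a
    rw [cdeg_union hd, cdeg_of_diff (fun _ => DRO J) cov_RO, cdeg_of_diff _ (cov_FR _ _ _),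
      card_DRO hk, card_DFR, hJc, Fintype.card_prod, ZMod.card, ZMod.card] at e
    simp only [if_true] at e
    omega
  have hm : IsMTS (fun a b c => R1 a b c ∨ R2 a b c) := by
    refine ⟨hp, ?_⟩
    intro a b hab
    by_contra hc
    have h1 := hdeg a
    unfold ldeg at h1
    rw [card_eq_zero, filter_eq_empty_iff] at h1
    exact h1 (mem_univ b) ⟨hab, hc⟩
  have hcard : Fintype.card (ZMod k × ZMod 3) = 3 * k := by
    rw [Fintype.card_prod, ZMod.card, ZMod.card, mul_comm]
  let e : Fin (3 * k) ≃ ZMod k × ZMod 3 := (Fintype.equivFinOfCardEq hcard).symm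
  refine ⟨fun a b c => R1 (e a) (e b) (e c) ∨ R2 (e a) (e b) (e c), ⟨?_, ?_, ?_⟩, ?_⟩
  · intro a b c h
    exact hm.1.cyc _ _ _ h
  · intro a b c h h'
    exact hm.1.ne _ _ _ h (by rw [h'])
  · intro a b c c' h h'
    exact e.injective (hm.1.uniq _ _ _ _ h h')
  · intro a b hab
    obtain ⟨c, hc⟩ := hm.2 (e a) (e b) (fun h => hab (e.injective h))
    exact ⟨e.symm c, by simpa using hc⟩

/-- level shift used by the extra fibre classes -/
def tau {k : ℕ} (i : ZMod 3) : ZMod k := if i = 0 then 0 else if i = 1 then 2 else 4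

theorem tau1 {k : ℕ} (i : ZMod 3) : (tau (i + 1) - tau i : ZMod k) = 2 ∨ (tau (i + 1) - tau i : ZMod k) = -4 := by
  have : i = 0 ∨ i = 1 ∨ i = 2 := by revert i; decide
  rcases this with rfl | rfl | rfl
  · left
    have e1 : (0 + 1 : ZMod 3) ≠ 0 := by decide
    have e2 : (0 + 1 : ZMod 3) = 1 := by decide
    simp [tau]
  · left
    have e1 : (1 + 1 : ZMod 3) ≠ 0 := by decide
    have e2 : (1 + 1 : ZMod 3) ≠ 1 := by decide
    have e3 : (1 : ZMod 3) ≠ 0 := by decide
    simp only [tau, if_neg e1, if_neg e2, if_neg e3, if_true]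
    ring
  · right
    have e1 : (2 + 1 : ZMod 3) = 0 := by decide
    have e2 : (2 : ZMod 3) ≠ 0 := by decide
    have e3 : (2 : ZMod 3) ≠ 1 := by decide
    simp only [tau, if_pos e1, if_neg e2, if_neg e3]
    ring

theorem tau2 {k : ℕ} (i : ZMod 3) : (tau (i + 2) - tau i : ZMod k) = 4 ∨ (tau (i + 2) - tau i : ZMod k) = -2 := by
  have : i = 0 ∨ i = 1 ∨ i = 2 := by revert i; decide
  rcases this with rfl | rfl | rfl
  · left
    have e1 : (0 + 2 : ZMod 3) ≠ 0 := by decide
    have e2 : (0 + 2 : ZMod 3) ≠ 1 := by decide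
    simp only [tau, if_neg e1, if_neg e2, if_true]
    ring
  · right
    have e1 : (1 + 2 : ZMod 3) = 0 := by decide
    have e3 : (1 : ZMod 3) ≠ 0 := by decide
    simp only [tau, if_pos e1, if_neg e3, if_true]
    ring
  · right
    have e1 : (2 + 2 : ZMod 3) ≠ 0 := by decide
    have e1' : (2 + 2 : ZMod 3) = 1 := by decide
    have e2 : (2 : ZMod 3) ≠ 0 := by decide
    have e3 : (2 : ZMod 3) ≠ 1 := by decide
    simp only [tau, if_neg e1, if_pos e1', if_neg e2, if_neg e3]
    ring

/-- The design on `C = ZMod k × ZMod 3`: a partial MTS `S`, `q` perfect matchings and a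
partial matching of size `3p`, all arc-disjoint, with prescribed local degrees. -/
theorem design {k : ℕ} [NeZero k] (hk : k % 2 = 1) (ε j q p : ℕ) (hε : ε ≤ 2) (hj : j + 5 ≤ k)
    (hq : q + 3 * j + 3 + 2 * ε ≤ 3 * k) (hp : p ≤ k) :
    ∃ (S : ZMod k × ZMod 3 → ZMod k × ZMod 3 → ZMod k × ZMod 3 → Prop)
      (Q : Finset (ZMod k × ZMod 3))
      (F : ZMod k × ZMod 3 → Finset ((ZMod k × ZMod 3) × (ZMod k × ZMod 3)))
      (R : Finset ((ZMod k × ZMod 3) × (ZMod k × ZMod 3))),
      IsPMTS S ∧ Q.card = q ∧ (∀ g ∈ Q, PInj (F g)) ∧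
      (∀ g ∈ Q, (F g).card = Fintype.card (ZMod k × ZMod 3)) ∧ PInj R ∧
      (∀ g ∈ Q, ∀ g' ∈ Q, g ≠ g' → Disjoint (F g) (F g')) ∧ (∀ g ∈ Q, Disjoint (F g) R) ∧
      R.card = 3 * p ∧
      (∀ a, ((∃ g ∈ Q, a ∈ F g) ∨ a ∈ R) → a.1 ≠ a.2 ∧ ¬ Cov S a.1 a.2) ∧
      (∀ G : ZMod k × ZMod 3 → ZMod k × ZMod 3 → Prop,
        (∀ w w', G w w' ↔ ((∃ g ∈ Q, (w, w') ∈ F g) ∨ (w, w') ∈ R)) →
        ∀ w, cdeg S w + (univ.filter (fun w' => G w w')).card
        + (univ.filter (fun w' => G w' w)).card = 3 * j + ε + 2 + 2 * q) := by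
  classical
  have hkpos : 0 < k := by omega
  -- the exceptional elements of ZMod k
  set E : Finset (ZMod k) := {0, 2, -4, 1, -2} with hE
  have hEc : E.card ≤ 5 := card_le_five
  obtain ⟨J, hJsub, hJc⟩ := exists_subset_card_eq (s := Eᶜ) (n := j) (by
    rw [card_compl, ZMod.card]; omega)
  have hJE : ∀ a ∈ J, a ∉ E := fun a ha => mem_compl.1 (hJsub ha)
  have h0 : (0 : ZMod k) ∉ J := fun h => hJE _ h (by simp [hE])
  have h2 : (2 : ZMod k) ∉ J := fun h => hJE _ h (by simp [hE])
  have h4 : (-4 : ZMod k) ∉ J := fun h => hJE _ h (by simp [hE])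
  have h1 : (1 : ZMod k) ∉ J := fun h => hJE _ h (by simp [hE])
  have h2' : (-2 : ZMod k) ∉ J := fun h => hJE _ h (by simp [hE])
  have htwo : (2 : ZMod k) ≠ 0 := by
    intro h
    have h' : (1 : ZMod k) = 0 := two_inj hk (by rw [mul_one, mul_zero]; exact h)
    have : k = 1 := by
      have := (ZMod.natCast_eq_zero_iff 1 k).1 (by simpa using h')
      exact Nat.dvd_one.1 this
    omega
  have hfour : (4 : ZMod k) ≠ 0 := by
    intro h
    apply htwo
    exact two_inj hk (by rw [mul_zero, ← h]; ring)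
  obtain ⟨P, hPc⟩ : ∃ P : Finset (ZMod k), P.card = p := by
    obtain ⟨P, _, hP⟩ := exists_subset_card_eq (s := (univ : Finset (ZMod k))) (n := p) (by
      rw [Finset.card_univ, ZMod.card]; exact hp)
    exact ⟨P, hP⟩
  -- forbidden differences
  set D : Finset (ZMod k × ZMod 3) := DRO J ∪ {((0 : ZMod k), (0 : ZMod 3)), (0, 1), (0, 2)} ∪
    (if 1 ≤ ε then {((2 : ZMod k), (1 : ZMod 3)), (-4, 1)} else ∅) ∪
    (if ε = 2 then {((4 : ZMod k), (2 : ZMod 3)), (-2, 2)} else ∅) with hD
  have hDc : D.card ≤ 3 * j + 3 + 2 * ε := by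
    have c1 : (DRO J).card = 3 * j := by rw [card_DRO hk, hJc]
    have c2 : ({((0 : ZMod k), (0 : ZMod 3)), (0, 1), (0, 2)} : Finset (ZMod k × ZMod 3)).card ≤ 3 :=
      card_le_three
    have c3 : (if 1 ≤ ε then {((2 : ZMod k), (1 : ZMod 3)), (-4, 1)} else ∅ :
        Finset (ZMod k × ZMod 3)).card ≤ (if 1 ≤ ε then 2 else 0) := by
      split_ifs
      · exact card_le_two
      · simp
    have c4 : (if ε = 2 then {((4 : ZMod k), (2 : ZMod 3)), (-2, 2)} else ∅ :
        Finset (ZMod k × ZMod 3)).card ≤ (if ε = 2 then 2 else 0) := by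
      split_ifs
      · exact card_le_two
      · simp
    have c5 : (if 1 ≤ ε then 2 else 0) + (if ε = 2 then 2 else 0) = 2 * ε := by
      rcases (show ε = 0 ∨ ε = 1 ∨ ε = 2 by omega) with rfl | rfl | rfl <;> rfl
    have := card_union_le (DRO J ∪ {((0 : ZMod k), (0 : ZMod 3)), (0, 1), (0, 2)} ∪
      (if 1 ≤ ε then {((2 : ZMod k), (1 : ZMod 3)), (-4, 1)} else ∅))
      (if ε = 2 then {((4 : ZMod k), (2 : ZMod 3)), (-2, 2)} else ∅)
    have := card_union_le (DRO J ∪ {((0 : ZMod k), (0 : ZMod 3)), (0, 1), (0, 2)})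
      (if 1 ≤ ε then {((2 : ZMod k), (1 : ZMod 3)), (-4, 1)} else ∅)
    have := card_union_le (DRO J) {((0 : ZMod k), (0 : ZMod 3)), (0, 1), (0, 2)}
    rw [hD]
    omega
  obtain ⟨Q, hQsub, hQc⟩ := exists_subset_card_eq (s := Dᶜ) (n := q) (by
    rw [card_compl, Fintype.card_prod, ZMod.card, ZMod.card]; omega)
  have hQD : ∀ g ∈ Q, g ∉ D := fun a ha => mem_compl.1 (hQsub ha)
  have hQ01 : ((0 : ZMod k), (1 : ZMod 3)) ∉ Q := fun h => hQD _ h (by simp [hD])
  have hQ00 : (0 : ZMod k × ZMod 3) ∉ Q := fun h => hQD _ h (by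
    rw [hD]
    simp only [mem_union, mem_insert, mem_singleton]
    left; left; right; left; rfl)
  -- the triples
  set R1 := RO J with hR1
  set R2 := FR (k := k) (fun _ => 0) (fun u => u ∉ P) (fun u => u ∉ P) with hR2
  set R3 := FR (k := k) tau (fun _ => 1 ≤ ε) (fun _ => ε = 2) with hR3
  have hcov2 : ∀ a b, Cov R2 a b → (b - a = (0, 1) ∨ b - a = (0, 2)) ∧ a.1 ∉ P := by
    intro a b h
    rw [hR2, cov_FR] at h
    simp only [DFR, mem_union, sub_zero] at h
    by_cases hs : a.1 ∈ P
    · simp only [hs, not_true_eq_false, if_false, notMem_empty, or_self] at h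
    · simp only [hs, not_false_eq_true, if_true, mem_singleton] at h
      exact ⟨h, hs⟩
  have hcov3 : ∀ a b, Cov R3 a b → (1 ≤ ε ∧ (b - a = (2, 1) ∨ b - a = (-4, 1))) ∨
      (ε = 2 ∧ (b - a = (4, 2) ∨ b - a = (-2, 2))) := by
    intro a b h
    rw [hR3, cov_FR] at h
    simp only [DFR, mem_union] at h
    rcases h with h | h
    · split_ifs at h with hs
      · rw [mem_singleton] at h
        refine Or.inl ⟨hs, ?_⟩
        rw [h]
        rcases tau1 (k := k) a.2 with e | e <;> rw [e] <;> simp
      · exact absurd h (notMem_empty _)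
    · split_ifs at h with hs
      · rw [mem_singleton] at h
        refine Or.inr ⟨hs, ?_⟩
        rw [h]
        rcases tau2 (k := k) a.2 with e | e <;> rw [e] <;> simp
      · exact absurd h (notMem_empty _)
  have hcov1 : ∀ a b, Cov R1 a b → b - a ∈ DRO J := by
    intro a b h
    rw [hR1, cov_RO] at h
    exact h
  have hDRO0 : ∀ i, ((0 : ZMod k), i) ∉ DRO J := by
    intro i h
    simp only [DRO, mem_union, mem_product, mem_singleton, mem_image] at h
    rcases h with (⟨h, -⟩ | ⟨h, -⟩) | ⟨⟨a, ha, h⟩, -⟩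
    · exact h0 h
    · exact h0 h
    · have : a = 0 := two_inj hk (by rw [mul_zero]; linear_combination -h)
      exact h0 (this ▸ ha)
  have hDRO3 : ((2 : ZMod k), (1 : ZMod 3)) ∉ DRO J ∧ ((-4 : ZMod k), (1 : ZMod 3)) ∉ DRO J ∧
      ((4 : ZMod k), (2 : ZMod 3)) ∉ DRO J ∧ ((-2 : ZMod k), (2 : ZMod 3)) ∉ DRO J := by
    have n10 : (1 : ZMod 3) ≠ 0 := by decide
    have n12 : (1 : ZMod 3) ≠ 2 := by decide
    have n20 : (2 : ZMod 3) ≠ 0 := by decide
    have n21 : (2 : ZMod 3) ≠ 1 := by decide
    simp only [DRO, mem_union, mem_product, mem_singleton, mem_image, n10, n12, n20, n21, and_false,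
      false_or, or_false, and_true]
    refine ⟨h2, h4, ?_, ?_⟩
    · rintro ⟨a, ha, h⟩
      have : a = -2 := two_inj hk (by linear_combination -h)
      exact h2' (this ▸ ha)
    · rintro ⟨a, ha, h⟩
      have : a = 1 := two_inj hk (by linear_combination -h)
      exact h1 (this ▸ ha)
  have hd12 : ∀ a b, Cov R1 a b → Cov R2 a b → False := by
    intro a b h h'
    have g1 := hcov1 a b h
    rcases (hcov2 a b h').1 with g2 | g2 <;> rw [g2] at g1 <;> exact hDRO0 _ g1
  have hd3 : ∀ a b, Cov (fun x y z => R1 x y z ∨ R2 x y z) a b → Cov R3 a b → False := by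
    intro a b h h'
    rw [cov_union] at h
    rcases h with h | h
    · have g1 := hcov1 a b h
      rcases hcov3 a b h' with ⟨-, g2 | g2⟩ | ⟨-, g2 | g2⟩ <;> rw [g2] at g1
      · exact hDRO3.1 g1
      · exact hDRO3.2.1 g1
      · exact hDRO3.2.2.1 g1
      · exact hDRO3.2.2.2 g1
    · rcases (hcov2 a b h).1 with g1 | g1 <;> rcases hcov3 a b h' with ⟨-, g2 | g2⟩ | ⟨-, g2 | g2⟩ <;>
        rw [g1] at g2 <;> have e1 := congrArg Prod.fst g2 <;> simp only at e1
      · exact htwo e1.symm
      · exact hfour (by linear_combination e1)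
      · exact hfour e1.symm
      · exact htwo (by linear_combination e1)
      · exact htwo e1.symm
      · exact hfour (by linear_combination e1)
      · exact hfour e1.symm
      · exact htwo (by linear_combination e1)
  set S := (fun x y z => (R1 x y z ∨ R2 x y z) ∨ R3 x y z) with hS
  have hSp : IsPMTS S :=
    ((RO_isPMTS hk h0).union (FR_isPMTS _ _ _) hd12).union (FR_isPMTS _ _ _) hd3
  have hSdeg : ∀ w, cdeg S w = 3 * j + (if w.1 ∉ P then 2 else 0) + ε := by
    intro w
    rw [hS, cdeg_union (R1 := fun x y z => R1 x y z ∨ R2 x y z) hd3, cdeg_union hd12,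
      cdeg_of_diff (fun _ => DRO J) cov_RO, cdeg_of_diff _ (cov_FR _ _ _),
      cdeg_of_diff _ (cov_FR _ _ _), card_DRO hk, card_DFR, card_DFR, hJc]
    simp only [sub_zero]
    by_cases hw : w.1 ∈ P <;> rcases (show ε = 0 ∨ ε = 1 ∨ ε = 2 by omega) with h | h | h <;>
      simp [hw, h]
  -- the marks
  let F : ZMod k × ZMod 3 → Finset ((ZMod k × ZMod 3) × (ZMod k × ZMod 3)) :=
    fun g => univ.filter (fun a => a.2 = a.1 + g)
  let R : Finset ((ZMod k × ZMod 3) × (ZMod k × ZMod 3)) :=
    univ.filter (fun a => a.1.1 ∈ P ∧ a.2 = a.1 + (0, 1))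
  have hF : ∀ g a b, (a, b) ∈ F g ↔ b = a + g := by
    intro g a b; simp [F]
  have hR : ∀ a b, (a, b) ∈ R ↔ a.1 ∈ P ∧ b = a + (0, 1) := by
    intro a b; simp only [R, mem_filter, mem_univ, true_and]
  refine ⟨S, Q, F, R, hSp, hQc, ?_, ?_, ?_, ?_, ?_, ?_, ?_, ?_⟩
  · intro g _
    constructor
    · rintro ⟨a, b⟩ h1 ⟨a', b'⟩ h2 e
      rw [hF] at h1 h2
      simp only at e
      rw [h1, h2, e]
    · rintro ⟨a, b⟩ h1 ⟨a', b'⟩ h2 e
      rw [hF] at h1 h2
      simp only at e
      rw [h1, h2] at e
      have := add_right_cancel e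
      rw [h1, h2, this]
  · intro g _
    rw [← Finset.card_univ]
    symm
    refine card_bij (fun w _ => (w, w + g)) ?_ ?_ ?_
    · intro w _; rw [hF]
    · intro a _ b _ e; exact (Prod.ext_iff.1 e).1
    · rintro ⟨a, b⟩ h
      rw [hF] at h
      exact ⟨a, mem_univ _, by rw [h]⟩
  · constructor
    · rintro ⟨a, b⟩ h1 ⟨a', b'⟩ h2 e
      rw [hR] at h1 h2
      simp only at e
      rw [h1.2, h2.2, e]
    · rintro ⟨a, b⟩ h1 ⟨a', b'⟩ h2 e
      rw [hR] at h1 h2
      simp only at e
      rw [h1.2, h2.2] at e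
      have := add_right_cancel e
      rw [h1.2, h2.2, this]
  · intro g _ g' _ hne
    rw [disjoint_left]
    rintro ⟨a, b⟩ h1 h2
    rw [hF] at h1 h2
    exact hne (add_left_cancel (h1.symm.trans h2))
  · intro g hg
    rw [disjoint_left]
    rintro ⟨a, b⟩ h1 h2
    rw [hF] at h1
    rw [hR] at h2
    have := add_left_cancel (h1.symm.trans h2.2)
    exact hQ01 (this ▸ hg)
  · have : (P ×ˢ (univ : Finset (ZMod 3))).card = 3 * p := by
      rw [card_product, hPc, Finset.card_univ, ZMod.card, mul_comm]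
    rw [← this]
    symm
    refine card_bij (fun w _ => (w, w + (0, 1))) ?_ ?_ ?_
    · intro w hw
      rw [hR]
      exact ⟨(mem_product.1 hw).1, rfl⟩
    · intro a _ b _ e; exact (Prod.ext_iff.1 e).1
    · rintro ⟨a, b⟩ h
      rw [hR] at h
      exact ⟨a, mem_product.2 ⟨h.1, mem_univ _⟩, by rw [h.2]⟩
  · rintro ⟨a, b⟩ h
    simp only
    rcases h with ⟨g, hg, h⟩ | h
    · rw [hF] at h
      have hba : b - a = g := by rw [h]; simp
      refine ⟨?_, ?_⟩
      · intro e
        rw [e, sub_self] at hba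
        exact hQ00 (hba ▸ hg)
      · intro hc
        have hgD := hQD g hg
        apply hgD
        rw [hS, cov_union (R1 := fun x y z => R1 x y z ∨ R2 x y z), cov_union] at hc
        rcases hc with (hc | hc) | hc
        · have := hcov1 a b hc
          rw [hba] at this
          rw [hD]
          simp only [mem_union]
          exact Or.inl (Or.inl (Or.inl this))
        · have := (hcov2 a b hc).1
          rw [hba] at this
          rw [hD]
          simp only [mem_union, mem_insert, mem_singleton]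
          exact Or.inl (Or.inl (Or.inr (Or.inr this)))
        · have := hcov3 a b hc
          rw [hba] at this
          rw [hD]
          simp only [mem_union]
          rcases this with ⟨hs, this⟩ | ⟨hs, this⟩
          · rw [if_pos hs]
            simp only [mem_insert, mem_singleton]
            exact Or.inl (Or.inr this)
          · rw [if_pos hs]
            simp only [mem_insert, mem_singleton]
            exact Or.inr this
    · rw [hR] at h
      have hba : b - a = (0, 1) := by rw [h.2]; simp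
      refine ⟨?_, ?_⟩
      · intro e
        rw [e, sub_self] at hba
        have h' : (0 : ZMod 3) = 1 := congrArg Prod.snd hba
        exact absurd h' (by decide)
      · intro hc
        rw [hS, cov_union (R1 := fun x y z => R1 x y z ∨ R2 x y z), cov_union] at hc
        rcases hc with (hc | hc) | hc
        · have := hcov1 a b hc
          rw [hba] at this
          exact hDRO0 _ this
        · exact (hcov2 a b hc).2 h.1
        · have := hcov3 a b hc
          rw [hba] at this
          rcases this with ⟨_, this | this⟩ | ⟨_, this | this⟩ <;>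
            have e1 := congrArg Prod.fst this <;> simp only at e1
          · exact htwo e1.symm
          · exact hfour (by linear_combination e1)
          · exact hfour e1.symm
          · exact htwo (by linear_combination e1)
  · intro G hG w
    have o1 : (univ.filter (fun w' => G w w')).card =
        q + (if w.1 ∈ P then 1 else 0) := by
      have e : univ.filter (fun w' => G w w') =
          Q.image (fun g => w + g) ∪ (if w.1 ∈ P then {w + (0, 1)} else ∅) := by
        ext w'
        simp only [mem_filter, mem_univ, true_and, mem_union, mem_image, hG, hF, hR]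
        constructor
        · rintro (⟨g, hg, h⟩ | ⟨h, h'⟩)
          · exact Or.inl ⟨g, hg, h.symm⟩
          · right; rw [if_pos h, h']; simp
        · rintro (⟨g, hg, h⟩ | h)
          · exact Or.inl ⟨g, hg, h.symm⟩
          · right
            split_ifs at h with hs
            · exact ⟨hs, mem_singleton.1 h⟩
            · exact absurd h (notMem_empty _)
      rw [e, card_union_of_disjoint, card_image_of_injective _ (add_right_injective w), hQc]
      · split_ifs <;> simp
      · rw [disjoint_left]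
        intro x hx hx'
        obtain ⟨g, hg, rfl⟩ := mem_image.1 hx
        split_ifs at hx' with hs
        · rw [mem_singleton] at hx'
          exact hQ01 ((add_left_cancel hx') ▸ hg)
        · exact absurd hx' (notMem_empty _)
    have o2 : (univ.filter (fun w' => G w' w)).card =
        q + (if w.1 ∈ P then 1 else 0) := by
      have e : univ.filter (fun w' => G w' w) =
          Q.image (fun g => w - g) ∪ (if w.1 ∈ P then {w - (0, 1)} else ∅) := by
        ext w'
        simp only [mem_filter, mem_univ, true_and, mem_union, mem_image, hG, hF, hR]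
        constructor
        · rintro (⟨g, hg, h⟩ | ⟨h, h'⟩)
          · exact Or.inl ⟨g, hg, by rw [h]; simp⟩
          · right
            have hw : w.1 = w'.1 := by rw [h']; simp
            rw [hw, if_pos h, h']; simp
        · rintro (⟨g, hg, h⟩ | h)
          · exact Or.inl ⟨g, hg, by rw [← h]; simp⟩
          · right
            split_ifs at h with hs
            · rw [mem_singleton] at h
              rw [h]
              refine ⟨?_, by simp⟩
              simpa using hs
            · exact absurd h (notMem_empty _)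
      rw [e, card_union_of_disjoint, card_image_of_injective _ (sub_right_injective), hQc]
      · split_ifs <;> simp
      · rw [disjoint_left]
        intro x hx hx'
        obtain ⟨g, hg, rfl⟩ := mem_image.1 hx
        split_ifs at hx' with hs
        · rw [mem_singleton] at hx'
          exact hQ01 ((sub_right_injective hx') ▸ hg)
        · exact absurd hx' (notMem_empty _)
    rw [o1, o2, hSdeg]
    by_cases hw : w.1 ∈ P
    · simp only [hw, not_true, if_true, if_false]; omega
    · simp only [hw, not_false_iff, if_true, if_false]; omega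

end Pool.Agent.Run7.h87
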